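import Pool.Agent.TH86.IL.Tower

/-!
# Cuts of the base graph and squares of lines
-/

set_option autoImplicit false

namespace Pool.Agent.TH86.IL

universe u

section cuts

variable {H : Type u} (D : GM H)

theorem exists_path (n : ℕ) : ∀ x y, D.d x y = n → ∃ p : ℕ → H, p 0 = x ∧ p n = y ∧
    ∀ i < n, D.d (p i) (p (i + 1)) ≤ 1 := by
  classical
  induction n with
  | zero =>
    intro x y h
    exact ⟨fun _ => x, rfl, D.d_eq _ _ h, fun i hi => absurd hi (by omega)⟩
  | succ n ih =>
    intro x y h
    obtain ⟨z, hz1, hz2⟩ := D.d_geo x y n h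
    obtain ⟨p, hp0, hpn, hp⟩ := ih x z hz1
    refine ⟨fun i => if i ≤ n then p i else y, by simp [hp0], by simp, fun i hi => ?_⟩
    rcases Nat.lt_or_ge i n with hin | hin
    · simp only [show i ≤ n by omega, show i + 1 ≤ n by omega, if_true]
      exact hp i hin
    · have : i = n := by omega
      subst this
      simp only [le_refl, if_true, show ¬ (i + 1 ≤ i) by omega, if_false, hpn]
      omega

theorem const_far {χ : H → ZMod 2} {o : H} {s : ℕ}
    (hχ : ∀ x y, D.d x y ≤ 1 → χ x ≠ χ y → D.d o x ≤ s) (n : ℕ) :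
    ∀ x y, D.d x y = n → s + n < D.d o x → χ x = χ y := by
  induction n with
  | zero =>
    intro x y h _
    rw [D.d_eq _ _ h]
  | succ n ih =>
    intro x y h hx
    obtain ⟨z, hz1, hz2⟩ := D.d_geo x y n h
    rw [ih x z hz1 (by omega)]
    by_contra hne
    have h1 := hχ z y hz2.le hne
    have h2 := D.d_tri o z x
    rw [D.d_symm z x] at h2
    omega

theorem const_far' {χ : H → ZMod 2} {o : H} {s r : ℕ}
    (hχ : ∀ x y, D.d x y ≤ 1 → χ x ≠ χ y → D.d o x ≤ s) {x y : H}
    (h : D.d x y ≤ r) (hx : s + r < D.d o x) : χ x = χ y :=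
  const_far D hχ _ x y rfl (by omega)

theorem Par.symm {D : GM H} {σ s : ℕ} {h h' : ℤ → H} (hp : Par D σ s h h') : Par D σ s h' h :=
  fun o χ hχ t t' h1 h2 => (hp o χ hχ t' t h2 h1).symm

theorem par_of_near {σ s r : ℕ} {h h' : ℤ → H} {tp tq : ℤ}
    (hP : Par D σ s h h) (hP' : Par D σ s h' h')
    (h1 : D.d (h tp) (h' tp) ≤ r) (h2 : D.d (h tq) (h' tq) ≤ r)
    (hfar : 2 * (σ + s + r) < D.d (h tp) (h tq)) : Par D σ s h h' := by
  intro o χ hχ t t' ht ht'
  have key : ∀ u, D.d (h u) (h' u) ≤ r → σ + s + r < D.d o (h u) → χ (h t) = χ (h' t') := by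
    intro u hu hou
    have e1 : χ (h u) = χ (h' u) := const_far' D hχ hu (by omega)
    have h3 := D.d_tri o (h' u) (h u)
    rw [D.d_symm (h' u)] at h3
    rw [hP o χ hχ t u ht (by omega), hP' o χ hχ t' u ht' (by omega), e1]
  by_cases hc : σ + s + r < D.d o (h tp)
  · exact key tp h1 hc
  · have h3 := D.d_tri (h tp) o (h tq)
    rw [D.d_symm (h tp) o] at h3
    exact key tq h2 (by omega)

/-- The main lemma on functions on the base: a function `ψ` whose coboundary at scale `m0` has
bounded components takes the same value at far away points of two unseparated lines. -/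
theorem n4 {m0 : ℕ} (hm0 : 1 ≤ m0) (hex : Exact1 D m0) (ψ : H → ZMod 2) {s0 σ : ℕ}
    (hcomp : ∀ x y, Relation.ReflTransGen (fun a b => (∃ c, D.d a c ≤ m0 ∧ ψ a ≠ ψ c) ∧
      (∃ c, D.d b c ≤ m0 ∧ ψ b ≠ ψ c) ∧ D.d a b ≤ m0) x y → D.d x y ≤ s0)
    {h h' : ℤ → H} (hpar : Par D σ s0 h h') {t t' : ℤ}
    (ht : ∀ u, (∃ c, D.d u c ≤ m0 ∧ ψ u ≠ ψ c) → σ < D.d u (h t))
    (ht' : ∀ u, (∃ c, D.d u c ≤ m0 ∧ ψ u ≠ ψ c) → σ < D.d u (h' t')) :
    ψ (h t) = ψ (h' t') := by
  classical
  set U : H → Prop := fun a => ∃ c, D.d a c ≤ m0 ∧ ψ a ≠ ψ c with hU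
  set R : H → H → Prop := fun a b => U a ∧ U b ∧ D.d a b ≤ m0 with hR
  have hRsymm : ∀ a b, R a b → R b a := fun a b h => ⟨h.2.1, h.1, by rw [D.d_symm]; exact h.2.2⟩
  have hRT : ∀ a b, Relation.ReflTransGen R a b → Relation.ReflTransGen R b a := by
    intro a b hab
    induction hab with
    | refl => exact .refl
    | tail _ h ih => exact ih.head (hRsymm _ _ h)
  -- one class
  have one : ∀ u0, U u0 → ∃ χ : H → ZMod 2,
      (∀ x y, D.d x y ≤ m0 →
        (if Relation.ReflTransGen R u0 x then ψ x + ψ y else 0) = χ x + χ y) ∧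
      χ (h t) = χ (h' t') := by
    intro u0 hu0
    have hcoc : ∀ x y z, D.d x y ≤ m0 → D.d y z ≤ m0 → D.d x z ≤ m0 →
        (if Relation.ReflTransGen R u0 x then ψ x + ψ y else 0) +
        (if Relation.ReflTransGen R u0 y then ψ y + ψ z else 0) =
        (if Relation.ReflTransGen R u0 x then ψ x + ψ z else 0) := by
      intro x y z hxy hyz hxz
      have hxy' : D.d y x ≤ m0 := by rw [D.d_symm]; exact hxy
      have hyz' : D.d z y ≤ m0 := by rw [D.d_symm]; exact hyz
      by_cases exy : ψ x = ψ y
      · by_cases eyz : ψ y = ψ z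
        · rw [exy, eyz]
          have h2 : ψ z + ψ z = 0 := CharTwo.add_self_eq_zero _
          simp [h2]
        · have hUy : U y := ⟨z, hyz, eyz⟩
          have hUx : U x := ⟨z, hxz, by rw [exy]; exact eyz⟩
          have hiff : Relation.ReflTransGen R u0 x ↔ Relation.ReflTransGen R u0 y :=
            ⟨fun h => h.tail ⟨hUx, hUy, hxy⟩, fun h => h.tail ⟨hUy, hUx, hxy'⟩⟩
          by_cases hx : Relation.ReflTransGen R u0 x
          · rw [if_pos hx, if_pos (hiff.1 hx), if_pos hx, exy]
            have h2 : ψ y + ψ y = 0 := CharTwo.add_self_eq_zero _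
            rw [h2, zero_add]
          · rw [if_neg hx, if_neg (fun h => hx (hiff.2 h)), if_neg hx, add_zero]
      · have hUx : U x := ⟨y, hxy, exy⟩
        have hUy : U y := ⟨x, hxy', Ne.symm exy⟩
        have hiff : Relation.ReflTransGen R u0 x ↔ Relation.ReflTransGen R u0 y :=
          ⟨fun h => h.tail ⟨hUx, hUy, hxy⟩, fun h => h.tail ⟨hUy, hUx, hxy'⟩⟩
        by_cases hx : Relation.ReflTransGen R u0 x
        · rw [if_pos hx, if_pos (hiff.1 hx), if_pos hx]
          have h2 : ψ y + ψ y = 0 := CharTwo.add_self_eq_zero _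
          calc ψ x + ψ y + (ψ y + ψ z) = ψ x + (ψ y + ψ y) + ψ z := by ring
            _ = ψ x + ψ z := by rw [h2, add_zero]
        · rw [if_neg hx, if_neg (fun h => hx (hiff.2 h)), if_neg hx, add_zero]
    obtain ⟨χ, hχ⟩ := hex _ hcoc
    refine ⟨χ, hχ, ?_⟩
    apply hpar u0 χ _ t t' (ht u0 hu0) (ht' u0 hu0)
    intro x y hxy hne
    have h1 := hχ x y (by omega)
    by_cases hx : Relation.ReflTransGen R u0 x
    · exact hcomp u0 x hx
    · exfalso
      rw [if_neg hx] at h1
      exact hne ((CharTwo.add_eq_zero).1 h1.symm)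
  -- finitely many classes
  have many : ∀ 𝒞 : Finset (Set H), ∃ χ : H → ZMod 2,
      (∀ x y, D.d x y ≤ m0 →
        (if U x ∧ {b | Relation.ReflTransGen R x b} ∈ 𝒞 then ψ x + ψ y else 0) = χ x + χ y) ∧
      χ (h t) = χ (h' t') := by
    intro 𝒞
    induction 𝒞 using Finset.induction_on with
    | empty => exact ⟨0, by simp, rfl⟩
    | insert C 𝒞 hC ih =>
      obtain ⟨χ, hχ1, hχ2⟩ := ih
      by_cases hex' : ∃ u0, U u0 ∧ {b | Relation.ReflTransGen R u0 b} = C
      · obtain ⟨u0, hu0, rfl⟩ := hex'
        obtain ⟨χ', hχ'1, hχ'2⟩ := one u0 hu0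
        refine ⟨χ + χ', fun x y hxy => ?_, ?_⟩
        · have e1 := hχ1 x y hxy
          have e2 := hχ'1 x y hxy
          have e3 : (χ + χ') x + (χ + χ') y = (χ x + χ y) + (χ' x + χ' y) := by
            simp only [Pi.add_apply]; ring
          rw [e3, ← e1, ← e2]
          have hiff : Relation.ReflTransGen R u0 x ↔
              {b | Relation.ReflTransGen R x b} = {b | Relation.ReflTransGen R u0 b} := by
            constructor
            · intro hx
              ext b
              exact ⟨fun hb => hx.trans hb, fun hb => (hRT _ _ hx).trans hb⟩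
            · intro he
              have : x ∈ {b | Relation.ReflTransGen R x b} := Relation.ReflTransGen.refl
              rw [he] at this
              exact this
          by_cases hx : Relation.ReflTransGen R u0 x
          · have hUx : U x := by
              rcases Relation.ReflTransGen.cases_tail hx with h | ⟨z, _, hz⟩
              · rw [h]; exact hu0
              · exact hz.2.1
            have hnot : ¬ (U x ∧ {b | Relation.ReflTransGen R x b} ∈ 𝒞) := by
              rintro ⟨_, h⟩
              rw [hiff.1 hx] at h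
              exact hC h
            rw [if_pos hx, if_neg hnot, if_pos ⟨hUx, by rw [hiff.1 hx]; simp⟩, zero_add]
          · rw [if_neg hx, add_zero]
            have : (U x ∧ {b | Relation.ReflTransGen R x b} ∈
                insert {b | Relation.ReflTransGen R u0 b} 𝒞) ↔
                (U x ∧ {b | Relation.ReflTransGen R x b} ∈ 𝒞) := by
              constructor
              · rintro ⟨h1, h2⟩
                refine ⟨h1, ?_⟩
                rcases Finset.mem_insert.1 h2 with h3 | h3
                · exact absurd (hiff.2 h3) hx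
                · exact h3
              · rintro ⟨h1, h2⟩
                exact ⟨h1, Finset.mem_insert_of_mem h2⟩
            simp only [this]
        · simp only [Pi.add_apply, hχ2, hχ'2]
      · refine ⟨χ, fun x y hxy => ?_, hχ2⟩
        rw [← hχ1 x y hxy]
        have : (U x ∧ {b | Relation.ReflTransGen R x b} ∈ insert C 𝒞) ↔
            (U x ∧ {b | Relation.ReflTransGen R x b} ∈ 𝒞) := by
          constructor
          · rintro ⟨h1, h2⟩
            refine ⟨h1, ?_⟩
            rcases Finset.mem_insert.1 h2 with h3 | h3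
            · exact absurd ⟨x, h1, h3⟩ hex'
            · exact h3
          · rintro ⟨h1, h2⟩
            exact ⟨h1, Finset.mem_insert_of_mem h2⟩
        simp only [this]
  -- conclusion along a path
  obtain ⟨p, hp0, hpn, hp⟩ := exists_path D _ (h t) (h' t') rfl
  set N := D.d (h t) (h' t') with hN
  obtain ⟨χ, hχ1, hχ2⟩ := many
    ((Finset.range (N + 1)).image (fun i => {b | Relation.ReflTransGen R (p i) b}))
  have hstep : ∀ i ≤ N, ψ (p i) + χ (p i) = ψ (p 0) + χ (p 0) := by
    intro i
    induction i with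
    | zero => intro _; rfl
    | succ i ih =>
      intro hi
      rw [← ih (by omega)]
      have h1 := hp i (by omega)
      have h2 := hχ1 (p i) (p (i + 1)) (by omega)
      by_cases he : ψ (p i) = ψ (p (i + 1))
      · have h3 : ψ (p i) + ψ (p (i + 1)) = 0 := by rw [he]; exact CharTwo.add_self_eq_zero _
        have h4 : χ (p i) + χ (p (i + 1)) = 0 := by
          rw [← h2]
          split_ifs
          · exact h3
          · rfl
        rw [he, CharTwo.add_eq_zero.1 h4]
      · have hUi : U (p i) := ⟨p (i + 1), by omega, he⟩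
        rw [if_pos ⟨hUi, Finset.mem_image.2 ⟨i, Finset.mem_range.2 (by omega), rfl⟩⟩] at h2
        have h5 : ψ (p (i + 1)) + χ (p (i + 1)) + (ψ (p i) + χ (p i)) = 0 := by
          calc ψ (p (i + 1)) + χ (p (i + 1)) + (ψ (p i) + χ (p i))
              = (ψ (p i) + ψ (p (i + 1))) + (χ (p i) + χ (p (i + 1))) := by ring
            _ = 0 := by rw [h2]; exact CharTwo.add_self_eq_zero _
        exact CharTwo.add_eq_zero.1 h5
  have h6 := hstep N le_rfl
  rw [hpn, hp0, ← hχ2] at h6
  exact (add_right_cancel h6).symm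

end cuts

end Pool.Agent.TH86.IL
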