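import Mathlib

/-!
# Iterated lamplighters: basic definitions

Integer valued graph metrics, lamplighter extensions of such, cut functions, covering families
(`PF`) and certificates (`QF`).
-/

set_option autoImplicit false

namespace Pool.Agent.TH86.IL

universe u v w

/-- A graph metric: an integer valued metric in which distances are realised by chains of steps of
length one, all balls of radius `n` being finite of the same cardinality `V n`. -/
structure GM (X : Type u) where
  d : X → X → ℕ
  d_self : ∀ x, d x x = 0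
  d_eq : ∀ x y, d x y = 0 → x = y
  d_symm : ∀ x y, d x y = d y x
  d_tri : ∀ x y z, d x z ≤ d x y + d y z
  d_geo : ∀ x y n, d x y = n + 1 → ∃ z, d x z = n ∧ d z y = 1
  V : ℕ → ℕ
  ball_fin : ∀ x n, {y | d x y ≤ n}.Finite
  ball_card : ∀ x n, {y | d x y ≤ n}.ncard = V n

/-- `E'` is (the graph metric of) the lamplighter graph over `E`: a point of `X` is a pair of a
finitely supported lamp configuration `lam g : K → ZMod 2` and a position `pos g : K`; steps either
move the position by a step of `E` or toggle the lamp at the present position. -/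
structure LampOver {K : Type u} {X : Type v} (E : GM K) (E' : GM X) where
  pos : X → K
  lam : X → K → ZMod 2
  fin : ∀ g, {k | lam g k ≠ 0}.Finite
  pt : (K → ZMod 2) → K → X
  pos_pt : ∀ φ k, {k | φ k ≠ 0}.Finite → pos (pt φ k) = k
  lam_pt : ∀ φ k, {k | φ k ≠ 0}.Finite → lam (pt φ k) = φ
  ext : ∀ g g', pos g = pos g' → lam g = lam g' → g = g'
  adj : ∀ g g', E'.d g g' ≤ 1 ↔
    (lam g = lam g' ∧ E.d (pos g) (pos g') ≤ 1) ∨
    (pos g = pos g' ∧ (∀ k, k ≠ pos g → lam g' k = lam g k) ∧
      lam g' (pos g) = lam g (pos g) + 1)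

/-- Every `ZMod 2`-valued 1-cocycle at scale `m` is a coboundary. -/
def Exact1 {H : Type u} (D : GM H) (m : ℕ) : Prop :=
  ∀ J : H → H → ZMod 2,
    (∀ x y z, D.d x y ≤ m → D.d y z ≤ m → D.d x z ≤ m → J x y + J y z = J x z) →
    ∃ χ : H → ZMod 2, ∀ x y, D.d x y ≤ m → J x y = χ x + χ y

/-- `h` and `h'` (sequences in `H`) are not separated by cuts of size `s`: every function `χ` whose
coboundary is supported in a ball of radius `s` about `o` takes the same value at all points
of `h` and `h'` at distance more than `σ` from `o`. -/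
def Par {H : Type u} (D : GM H) (σ s : ℕ) (h h' : ℤ → H) : Prop :=
  ∀ (o : H) (χ : H → ZMod 2), (∀ x y, D.d x y ≤ 1 → χ x ≠ χ y → D.d o x ≤ s) →
    ∀ t t', σ < D.d o (h t) → σ < D.d o (h' t') → χ (h t) = χ (h' t')

/-- `x` and `y` are joined by a chain of steps of length one all of whose points are at distance
more than `Δ` from `m` (or `x = y`). -/
def Conn {H : Type u} (D : GM H) (m : H) (Δ : ℕ) (x y : H) : Prop :=
  Relation.ReflTransGen (fun a b => D.d a b ≤ 1 ∧ Δ < D.d m a ∧ Δ < D.d m b) x y

/-- Tree-likeness with constant `Δ`: for `m` on a geodesic from `x` to `y`, no path from `x` to `y`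
avoids the ball of radius `Δ` about `m`. -/
def TreeLike {H : Type u} (D : GM H) (Δ : ℕ) : Prop :=
  ∀ x m y, Δ < D.d m x → Δ < D.d m y → D.d x m + D.d m y = D.d x y → ¬ Conn D m Δ x y

/-- A family of finite sets of size at most `N` covering every point exactly `n` times, such that
at most `L` of the sets separate a point from a given neighbour. -/
def PF {X : Type u} (E : GM X) (n L N : ℕ) : Prop :=
  ∃ (ι : Type u) (S : ι → Set X), (∀ i, (S i).Finite ∧ (S i).ncard ≤ N) ∧
    (∀ x, {i | x ∈ S i}.Finite ∧ {i | x ∈ S i}.ncard = n) ∧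
    ∀ x y, E.d x y ≤ 1 → {i | x ∈ S i ∧ y ∉ S i}.ncard ≤ L

open scoped Classical in
/-- A certificate: a nonempty finite set `F` and nonnegative weights on the edges inside `F` of
total weight at most `κ |F|`, such that every subset of `F` with at most `N` points has no more
points than the weight of its boundary. -/
def QF {X : Type u} (E : GM X) (κ : ℝ) (N : ℕ) : Prop :=
  ∃ (F : Finset X) (w : X → X → ℝ), F.Nonempty ∧ (∀ x y, 0 ≤ w x y) ∧
    (∀ x y, w x y ≠ 0 → E.d x y ≤ 1) ∧
    (∑ x ∈ F, ∑ y ∈ F, w x y ≤ κ * F.card) ∧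
    ∀ S : Finset X, S ⊆ F → S.card ≤ N →
      (S.card : ℝ) ≤ ∑ x ∈ S, ∑ y ∈ F.filter (fun y => y ∉ S), w x y

/-- Size function of the covering families for the `k`-th iterated lamplighter. -/
def EE : ℕ → ℕ → ℕ
  | 0, N => N
  | k + 1, N => EE k N * 2 ^ (EE k N)

/-- Size function of the certificates for the `k`-th iterated lamplighter. -/
def TT : ℕ → ℕ → ℕ
  | 0, N => N
  | k + 1, N => 2 ^ (TT k N / 4)

/-- Weight function of the certificates for the `k`-th iterated lamplighter. -/
def KK : ℕ → ℝ → ℝ
  | 0, r => r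
  | k + 1, r => 3 * KK k r + 2

end Pool.Agent.TH86.IL
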