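import Pool.Agent.TH86.IL.Word

/-!
# The lamplighter group over a group
-/

set_option autoImplicit false

open scoped Pointwise

namespace Pool.Agent.TH86.IL

universe u v w

section

variable {K : Type u} [Group K]

theorem Lamplighter.fin (g : Lamplighter K) : (Function.mulSupport g.1.left).Finite := g.2

/-- element from data -/
def Lamplighter.of (c : K → Multiplicative (ZMod 2)) (hc : (Function.mulSupport c).Finite)
    (k : K) : Lamplighter K := ⟨⟨c, k⟩, hc⟩

theorem Lamplighter.ext' {g g' : Lamplighter K} (h1 : g.1.left = g'.1.left)
    (h2 : g.1.right = g'.1.right) : g = g' :=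
  Subtype.ext (RegularWreathProduct.ext h1 h2)

/-- The inclusion of the base group. -/
def inlK : K →* Lamplighter K where
  toFun k := ⟨⟨1, k⟩, by show (Function.mulSupport (1 : K → Multiplicative (ZMod 2))).Finite; simp⟩
  map_one' := rfl
  map_mul' x y := by
    apply Lamplighter.ext'
    · show (1 : K → Multiplicative (ZMod 2)) = 1 * fun _ => 1
      funext z; simp
    · rfl

open scoped Classical in
/-- The lamp generator. -/
noncomputable def lampA : Lamplighter K :=
  ⟨⟨Pi.mulSingle 1 (Multiplicative.ofAdd 1), 1⟩, by
    show (Function.mulSupport
      (Pi.mulSingle (1 : K) (Multiplicative.ofAdd (1 : ZMod 2)) :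
        K → Multiplicative (ZMod 2))).Finite
    exact (Set.finite_singleton (1 : K)).subset Pi.mulSupport_mulSingle_subset⟩

/-- The standard generating set of the lamplighter group. -/
noncomputable def lampSet (S : Set K) : Set (Lamplighter K) := insert lampA (inlK '' S)

theorem lampSet_finite {S : Set K} (hS : S.Finite) : (lampSet S).Finite :=
  (hS.image _).insert _

theorem zmod2_cases (x : ZMod 2) : x = 0 ∨ x = 1 := by
  revert x; decide

theorem mz_cases (x : Multiplicative (ZMod 2)) : x = 1 ∨ x = Multiplicative.ofAdd 1 :=
  zmod2_cases (Multiplicative.toAdd x)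

theorem lampA_mul_self : (lampA : Lamplighter K) * lampA = 1 := by
  classical
  apply Lamplighter.ext'
  · show (Pi.mulSingle 1 (Multiplicative.ofAdd 1) : K → Multiplicative (ZMod 2)) *
      (fun x => (Pi.mulSingle 1 (Multiplicative.ofAdd 1) : K → Multiplicative (ZMod 2))
        ((1 : K)⁻¹ * x)) = 1
    funext x
    by_cases hx : x = 1
    · subst hx
      simp only [Pi.mul_apply, inv_one, mul_one, Pi.mulSingle_eq_same, Pi.one_apply]
      rfl
    · simp [Pi.mulSingle_eq_of_ne hx]
  · show (1 : K) * 1 = 1
    simp

theorem lampA_inv : (lampA : Lamplighter K)⁻¹ = lampA :=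
  inv_eq_of_mul_eq_one_right lampA_mul_self

theorem mul_inlK_left (g : Lamplighter K) (s : K) : (g * inlK s).1.left = g.1.left := by
  show g.1.left * (fun _ => 1) = g.1.left
  funext z; simp

theorem mul_inlK_right (g : Lamplighter K) (s : K) : (g * inlK s).1.right = g.1.right * s := rfl

theorem mul_lampA_right (g : Lamplighter K) : (g * lampA).1.right = g.1.right := by
  show g.1.right * 1 = g.1.right
  simp

theorem mul_lampA_left_of_ne (g : Lamplighter K) (k : K) (hk : k ≠ g.1.right) :
    (g * lampA).1.left k = g.1.left k := by
  classical
  show g.1.left k * (Pi.mulSingle 1 (Multiplicative.ofAdd 1) : K → Multiplicative (ZMod 2))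
    (g.1.right⁻¹ * k) = g.1.left k
  have : g.1.right⁻¹ * k ≠ 1 := by
    intro h
    exact hk ((inv_mul_eq_one.1 h).symm)
  rw [Pi.mulSingle_eq_of_ne this, mul_one]

theorem mul_lampA_left_self (g : Lamplighter K) :
    (g * lampA).1.left g.1.right = g.1.left g.1.right * Multiplicative.ofAdd 1 := by
  classical
  show g.1.left g.1.right * (Pi.mulSingle 1 (Multiplicative.ofAdd 1) :
    K → Multiplicative (ZMod 2)) (g.1.right⁻¹ * g.1.right) = _
  rw [inv_mul_cancel, Pi.mulSingle_eq_same]

theorem closure_lampSet {S : Set K} (hS : Subgroup.closure S = ⊤) :
    Subgroup.closure (lampSet S) = ⊤ := by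
  classical
  set P := Subgroup.closure (lampSet S) with hP
  have hK : ∀ k, inlK k ∈ P := by
    intro k
    have hk : k ∈ Subgroup.closure S := by rw [hS]; trivial
    have h1 : inlK k ∈ (Subgroup.closure S).map (inlK : K →* Lamplighter K) := ⟨k, hk, rfl⟩
    rw [MonoidHom.map_closure] at h1
    exact Subgroup.closure_mono (Set.subset_insert _ _) h1
  have hA : (lampA : Lamplighter K) ∈ P := Subgroup.subset_closure (Set.mem_insert _ _)
  have hconj : ∀ (k : K) (t : Multiplicative (ZMod 2))
      (h : (Function.mulSupport (Pi.mulSingle k t : K → Multiplicative (ZMod 2))).Finite),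
      Lamplighter.of (Pi.mulSingle k t : K → Multiplicative (ZMod 2)) h 1 ∈ P := by
    intro k t h
    rcases mz_cases t with ht | ht
    · have : Lamplighter.of (Pi.mulSingle k t : K → Multiplicative (ZMod 2)) h 1 =
          (1 : Lamplighter K) := by
        apply Lamplighter.ext'
        · show (Pi.mulSingle k t : K → Multiplicative (ZMod 2)) = 1
          rw [ht, Pi.mulSingle_one]
        · rfl
      rw [this]; exact P.one_mem
    · have : Lamplighter.of (Pi.mulSingle k t : K → Multiplicative (ZMod 2)) h 1 =
          inlK k * lampA * inlK k⁻¹ := by
        apply Lamplighter.ext'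
        · rw [mul_inlK_left]
          funext z
          show (Pi.mulSingle k t : K → Multiplicative (ZMod 2)) z = _
          by_cases hz : z = k
          · have hr : (inlK k : Lamplighter K).1.right = k := rfl
            have h2 := mul_lampA_left_self (inlK k : Lamplighter K)
            rw [hr] at h2
            rw [hz, h2, Pi.mulSingle_eq_same, ht]
            show _ = 1 * _
            rw [one_mul]
          · rw [mul_lampA_left_of_ne _ _ (by exact hz), Pi.mulSingle_eq_of_ne hz]
            rfl
        · rw [mul_inlK_right, mul_lampA_right]
          show (1 : K) = k * k⁻¹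
          simp
      rw [this]
      exact P.mul_mem (P.mul_mem (hK k) hA) (hK _)
  have hc : ∀ (s : Finset K) (c : K → Multiplicative (ZMod 2))
      (h : (Function.mulSupport c).Finite),
      Function.mulSupport c ⊆ ↑s → Lamplighter.of c h 1 ∈ P := by
    intro s
    induction s using Finset.induction_on with
    | empty =>
      intro c h hsub
      have hc1 : c = 1 := by
        have : Function.mulSupport c = ∅ := by
          apply Set.eq_empty_of_subset_empty
          simpa using hsub
        exact Function.mulSupport_eq_empty_iff.1 this
      have : Lamplighter.of c h 1 = (1 : Lamplighter K) := by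
        apply Lamplighter.ext'
        · exact hc1
        · rfl
      rw [this]; exact P.one_mem
    | insert k s hk ih =>
      intro c h hsub
      have hfin' : (Function.mulSupport (Function.update c k 1)).Finite := by
        apply h.subset
        intro z hz
        rw [Function.mem_mulSupport] at hz ⊢
        by_cases hzk : z = k
        · rw [hzk] at hz; simp at hz
        · rwa [Function.update_of_ne hzk] at hz
      have h1 := ih (Function.update c k 1) hfin' (by
        intro z hz
        rw [Function.mem_mulSupport] at hz
        by_cases hzk : z = k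
        · rw [hzk] at hz; simp at hz
        · rw [Function.update_of_ne hzk] at hz
          have := hsub (Function.mem_mulSupport.2 hz)
          rw [Finset.coe_insert] at this
          exact this.resolve_left hzk)
      have h2 := hconj k (c k)
        ((Set.finite_singleton k).subset Pi.mulSupport_mulSingle_subset)
      have : Lamplighter.of c h 1 = Lamplighter.of
          (Pi.mulSingle k (c k) : K → Multiplicative (ZMod 2))
          ((Set.finite_singleton k).subset Pi.mulSupport_mulSingle_subset) 1 *
          Lamplighter.of (Function.update c k 1) hfin' 1 := by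
        apply Lamplighter.ext'
        · funext z
          show c z = (Pi.mulSingle k (c k) : K → Multiplicative (ZMod 2)) z *
            Function.update c k 1 ((1 : K)⁻¹ * z)
          rw [inv_one, one_mul]
          by_cases hz : z = k
          · subst hz; simp
          · rw [Pi.mulSingle_eq_of_ne hz, Function.update_of_ne hz, one_mul]
        · show (1 : K) = 1 * 1
          simp
      rw [this]
      exact P.mul_mem h2 h1
  rw [eq_top_iff]
  intro g _
  have : g = Lamplighter.of g.1.left g.2 1 * inlK g.1.right := by
    apply Lamplighter.ext'
    · rw [mul_inlK_left]; rfl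
    · rw [mul_inlK_right]
      show _ = 1 * _
      rw [one_mul]
  rw [this]
  refine P.mul_mem (hc (g.fin.toFinset) _ _ (by simp)) (hK _)

theorem mem_sy_lampSet (S : Set K) (u : Lamplighter K) :
    u ∈ sy (lampSet S) ↔ u = lampA ∨ ∃ s ∈ sy S, u = inlK s := by
  constructor
  · rintro (h | h | h)
    · right; exact ⟨1, one_mem_sy S, by rw [h, map_one]⟩
    · rcases h with h | ⟨s, hs, rfl⟩
      · left; exact h
      · right; exact ⟨s, Or.inr (Or.inl hs), rfl⟩
    · rw [Set.mem_inv] at h
      rcases h with h | ⟨s, hs, h⟩
      · left
        rw [← lampA_inv, ← h, inv_inv]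
      · right
        refine ⟨s⁻¹, Or.inr (Or.inr (by simpa using hs)), ?_⟩
        rw [map_inv, h, inv_inv]
  · rintro (h | ⟨s, hs, rfl⟩)
    · right; left; left; exact h
    · rcases hs with hs | hs | hs
      · rw [hs, map_one]; exact one_mem_sy _
      · right; left; right; exact ⟨s, hs, rfl⟩
      · right; right
        rw [Set.mem_inv, ← map_inv]
        right; exact ⟨s⁻¹, hs, rfl⟩

open scoped Classical in
/-- The lamplighter group with its standard generating set is a lamplighter graph. -/
noncomputable def lampOver (S : Set K) (hfin : S.Finite) (hS : Subgroup.closure S = ⊤) :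
    LampOver (wGM S hfin hS) (wGM (lampSet S) (lampSet_finite hfin) (closure_lampSet hS)) where
  pos g := g.1.right
  lam g k := Multiplicative.toAdd (g.1.left k)
  fin g := g.2
  pt φ k := if h : {k | φ k ≠ 0}.Finite then
      Lamplighter.of (fun x => Multiplicative.ofAdd (φ x)) h k else 1
  pos_pt φ k h := by rw [dif_pos h]; rfl
  lam_pt φ k h := by rw [dif_pos h]; rfl
  ext g g' h1 h2 := by
    apply Lamplighter.ext' _ h1
    funext k
    exact Multiplicative.toAdd.injective (congrFun h2 k)
  adj g g' := by
    rw [wGM_le_iff, wGM_le_iff, pow_one, pow_one, mem_sy_lampSet]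
    constructor
    · rintro (h | ⟨s, hs, h⟩)
      · right
        have hg : g' = g * lampA := by rw [← h]; simp
        subst hg
        refine ⟨(mul_lampA_right g).symm, fun k hk => ?_, ?_⟩
        · show Multiplicative.toAdd _ = Multiplicative.toAdd _
          rw [mul_lampA_left_of_ne g k hk]
        · show Multiplicative.toAdd _ = Multiplicative.toAdd _ + 1
          rw [mul_lampA_left_self]; rfl
      · left
        have hg : g' = g * inlK s := by rw [← h]; simp
        subst hg
        refine ⟨by rw [mul_inlK_left], ?_⟩
        rw [mul_inlK_right]; simpa using hs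
    · rintro (⟨h1, h2⟩ | ⟨h1, h2, h3⟩)
      · right
        refine ⟨_, h2, ?_⟩
        rw [inv_mul_eq_iff_eq_mul]
        apply Lamplighter.ext'
        · rw [mul_inlK_left]
          funext k
          exact (Multiplicative.toAdd.injective (congrFun h1 k)).symm
        · rw [mul_inlK_right]; simp
      · left
        rw [inv_mul_eq_iff_eq_mul]
        apply Lamplighter.ext'
        · funext k
          by_cases hk : k = g.1.right
          · subst hk
            rw [mul_lampA_left_self]
            exact Multiplicative.toAdd.injective h3
          · rw [mul_lampA_left_of_ne g k hk]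
            exact Multiplicative.toAdd.injective (h2 k hk)
        · rw [mul_lampA_right]; exact h1.symm

end

end Pool.Agent.TH86.IL
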