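import Pool.Agent.TH86.IL.PartOne
import Pool.Agent.TH86.IL.Lamp
import Pool.Agent.TH365.J531
import Pool.Agent.TH365.J532
import Pool.Agent.TH553.IL535
import Pool.Agent.TH553.IL536
import Pool.Agent.TH553.IL537
import Pool.Agent.TH554.J534
import Pool.Agent.TH732.IL.Arith
import Pool.Agent.TH732.IL.Cube
import Pool.Agent.TH732.IL.PFQF

/-!
# Iterated lamplighter groups
-/

set_option autoImplicit false

open scoped Pointwise

namespace Pool.Agent.TH86.IL

universe u

/-- The standard generating sets of the iterated lamplighter groups. -/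
noncomputable def genSet (H : GrpCat.{u}) (S : Set H) : (n : ℕ) →
    {T : Set (iterL H n) // S.Finite → Subgroup.closure S = ⊤ → T.Finite ∧ Subgroup.closure T = ⊤}
  | 0 => ⟨S, fun h1 h2 => ⟨h1, h2⟩⟩
  | n + 1 => ⟨(lampSet (genSet H S n).1 : Set (Lamplighter (iterL H n))), fun h1 h2 =>
      ⟨lampSet_finite ((genSet H S n).2 h1 h2).1, closure_lampSet ((genSet H S n).2 h1 h2).2⟩⟩

section

variable (H : GrpCat.{u}) (S : Set H) (hS1 : S.Finite) (hS2 : Subgroup.closure S = ⊤)

/-- The graph metric of the `n`-th iterated lamplighter. -/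
noncomputable def gm (n : ℕ) : GM (iterL H n) :=
  wGM (genSet H S n).1 ((genSet H S n).2 hS1 hS2).1 ((genSet H S n).2 hS1 hS2).2

/-- Consecutive iterated lamplighters. -/
noncomputable def gmLamp (n : ℕ) : LampOver (gm H S hS1 hS2 n) (gm H S hS1 hS2 (n + 1)) :=
  lampOver (genSet H S n).1 ((genSet H S n).2 hS1 hS2).1 ((genSet H S n).2 hS1 hS2).2

/-- The tower of the `n`-th iterated lamplighter. -/
noncomputable def tower : (n : ℕ) →
    {T : Tower (gm H S hS1 hS2 0) (gm H S hS1 hS2 n) // T.n = n}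
  | 0 => ⟨Tower.base _, rfl⟩
  | n + 1 => ⟨(tower n).1.lamp (gmLamp H S hS1 hS2 n), by
      show (tower n).1.n + 1 = n + 1
      rw [(tower n).2]⟩

theorem PF_iter {n L N : ℕ} (h : PF (gm H S hS1 hS2 0) n L N) (k : ℕ) :
    PF (gm H S hS1 hS2 k) n L (EE k N) := by
  induction k with
  | zero => exact h
  | succ k ih => exact PF_lamp (gmLamp H S hS1 hS2 k) ih

theorem QF_iter {κ : ℝ} {N : ℕ} (h : QF (gm H S hS1 hS2 0) κ N) (k : ℕ) :
    QF (gm H S hS1 hS2 k) (KK k κ) (TT k N) := by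
  induction k with
  | zero => exact h
  | succ k ih =>
    exact Pool.Agent.TH554.J534.QF_lamp (fun F 𝒜 k h => cube_iso F 𝒜 k h)
      (gmLamp H S hS1 hS2 k) ih

end

theorem EE_mono {k l N : ℕ} (h : k ≤ l) : EE k N ≤ EE l N := by
  induction h with
  | refl => exact le_rfl
  | step _ ih =>
    refine ih.trans ?_
    show _ ≤ EE _ N * 2 ^ (EE _ N)
    exact Nat.le_mul_of_pos_right _ (by positivity)

theorem KK_le (n : ℕ) (r : ℝ) : KK n r + 1 = 3 ^ n * (r + 1) := by
  induction n with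
  | zero => simp [KK]
  | succ n ih =>
    show 3 * KK n r + 2 + 1 = _
    rw [pow_succ]
    linarith

theorem PF_mono {X : Type u} {E : GM X} {n L N N' : ℕ} (h : N ≤ N') (hp : PF E n L N) :
    PF E n L N' := by
  obtain ⟨ι, S, h1, h2, h3⟩ := hp
  exact ⟨ι, S, fun i => ⟨(h1 i).1, (h1 i).2.trans h⟩, h2, h3⟩

section balls

variable {X : Type u} (E : GM X)

theorem V_mono (o : X) : Monotone E.V := by
  intro r s h
  rw [← E.ball_card o r, ← E.ball_card o s]
  exact Set.ncard_le_ncard (fun y (hy : E.d o y ≤ r) => le_trans hy h) (E.ball_fin o s)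

theorem V_succ (o : X) (r : ℕ) : E.V (r + 1) ≤ E.V r * E.V 1 := by
  classical
  rw [← E.ball_card o (r + 1), ← E.ball_card o r]
  have hsub : {y | E.d o y ≤ r + 1} ⊆
      ↑(((E.ball_fin o r).toFinset).biUnion (fun z => (E.ball_fin z 1).toFinset)) := by
    intro y hy
    have hy' : E.d o y ≤ r + 1 := hy
    rw [Finset.mem_coe, Finset.mem_biUnion]
    rcases Nat.lt_or_ge (E.d o y) (r + 1) with h | h
    · exact ⟨y, by simpa using Nat.lt_succ_iff.1 h, by simp [E.d_self]⟩
    · obtain ⟨z, h1, h2⟩ := E.d_geo o y r (by omega)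
      exact ⟨z, by simp [h1], by simp [h2]⟩
  refine (Set.ncard_le_ncard hsub (Finset.finite_toSet _)).trans ?_
  rw [Set.ncard_coe_finset]
  refine (Finset.card_biUnion_le_card_mul _ _ (E.V 1) ?_).trans ?_
  · intro z _
    rw [← E.ball_card z 1, Set.ncard_eq_toFinset_card _ (E.ball_fin z 1)]
  · rw [Set.ncard_eq_toFinset_card _ (E.ball_fin o r)]

theorem V_ge [Infinite X] (o : X) (r : ℕ) : r + 1 ≤ E.V r := by
  classical
  have hall : ∀ n, ∃ y, E.d o y = n := by
    intro n
    have hfar : ∃ y, n ≤ E.d o y := by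
      by_contra hc
      push Not at hc
      have : (Set.univ : Set X).Finite := by
        apply (E.ball_fin o n).subset
        intro y _
        exact (hc y).le
      exact Set.infinite_univ this
    obtain ⟨y, hy⟩ := hfar
    obtain ⟨k, hk⟩ : ∃ k, E.d o y = n + k := ⟨E.d o y - n, by omega⟩
    clear hy
    induction k generalizing y with
    | zero => exact ⟨y, hk⟩
    | succ k ih =>
      obtain ⟨z, hz, _⟩ := E.d_geo o y (n + k) (by omega)
      exact ih z hz
  choose y hy using hall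
  rw [← E.ball_card o r]
  have hsub : (((Finset.range (r + 1)).image y : Finset X) : Set X) ⊆ {z | E.d o z ≤ r} := by
    intro z hz
    rw [Finset.coe_image] at hz
    obtain ⟨n, hn, rfl⟩ := hz
    have : n < r + 1 := by simpa using hn
    show E.d o (y n) ≤ r
    rw [hy]; omega
  have h2 := Set.ncard_le_ncard hsub (E.ball_fin o r)
  rw [Set.ncard_coe_finset, Finset.card_image_of_injective, Finset.card_range] at h2
  · exact h2
  · intro a b hab
    rw [← hy a, ← hy b, hab]

end balls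

/-- The tree-like case. -/
theorem part_two (H : GrpCat.{u}) [Infinite H] (S : Set H) (hS1 : S.Finite)
    (hS2 : Subgroup.closure S = ⊤) {Δ : ℕ} (hT : TreeLike (gm H S hS1 hS2 0) Δ) {n k : ℕ}
    (hk : k < n) (f : iterL H n → iterL H k) (g : iterL H k → iterL H n) (L : ℕ)
    (hf : ∀ x x', (gm H S hS1 hS2 k).d (f x) (f x') ≤ L * (gm H S hS1 hS2 n).d x x' + L)
    (hgf : ∀ x, (gm H S hS1 hS2 n).d (g (f x)) x ≤ L) : False := by
  classical
  obtain ⟨n', rfl⟩ : ∃ n', n = n' + 1 := ⟨n - 1, by omega⟩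
  set V := (gm H S hS1 hS2 0).V with hV
  set B := (gm H S hS1 hS2 (n' + 1)).V (2 * L) with hB
  have : Infinite (iterL H 0) := ‹Infinite H›
  obtain ⟨r, hr1, hr⟩ := arith V (fun r => V_ge _ (1 : iterL H 0) r)
    (V_mono _ (1 : iterL H 0)) (V 1) (fun r => V_succ _ (1 : iterL H 0) r)
    (8 * L * 3 ^ (n' + 1)) (4 * L * 3 ^ (n' + 1) + 4 * Δ + 4) B n'
  set m := 2 * L * 3 ^ (n' + 1) * (2 * r + 1) + 1 with hm
  have hP := PF_of_treeLike (gm H S hS1 hS2 0) (1 : iterL H 0) hT m
  have e1 : 2 * m + 4 * Δ + 2 = 8 * L * 3 ^ (n' + 1) * r + (4 * L * 3 ^ (n' + 1) + 4 * Δ + 4) := by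
    rw [hm]; ring
  rw [e1] at hP
  have hP2 := PF_iter H S hS1 hS2 hP k
  have hP3 := PF_pull (gm H S hS1 hS2 (n' + 1)) (gm H S hS1 hS2 k) f (L := 2 * L) (B := B)
    (fun x y hxy => by
      have h1 := hf x y
      have h2 := Nat.mul_le_mul_left L hxy
      omega)
    (fun y => by
      by_cases hne : ∃ x, f x = y
      · obtain ⟨x, hx⟩ := hne
        have hsub : {x' | f x' = y} ⊆ {x' | (gm H S hS1 hS2 (n' + 1)).d x x' ≤ 2 * L} := by
          intro x' hx'
          have hx'' : f x' = y := hx'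
          show (gm H S hS1 hS2 (n' + 1)).d x x' ≤ 2 * L
          have h1 := hgf x
          have h2 := hgf x'
          rw [hx] at h1
          rw [hx''] at h2
          rw [(gm H S hS1 hS2 (n' + 1)).d_symm] at h1
          have h3 := (gm H S hS1 hS2 (n' + 1)).d_tri x (g y) x'
          omega
        refine ⟨((gm H S hS1 hS2 (n' + 1)).ball_fin _ _).subset hsub, ?_⟩
        rw [hB, ← (gm H S hS1 hS2 (n' + 1)).ball_card x (2 * L)]
        exact Set.ncard_le_ncard hsub ((gm H S hS1 hS2 (n' + 1)).ball_fin _ _)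
      · have : {x | f x = y} = ∅ := by
          ext x
          constructor
          · intro hx; exact absurd ⟨x, hx⟩ hne
          · intro hx; exact absurd hx (Set.notMem_empty x)
        rw [this]
        simp) hP2
  have hle : B * EE k (V (8 * L * 3 ^ (n' + 1) * r + (4 * L * 3 ^ (n' + 1) + 4 * Δ + 4))) ≤
      TT (n' + 1) (V r / 2) :=
    le_trans (Nat.mul_le_mul_left B (EE_mono (by omega))) hr
  have hP4 := PF_mono hle hP3
  have hQ := QF_iter H S hS1 hS2 (QF_ball (gm H S hS1 hS2 0) (1 : iterL H 0) r (V r / 2)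
    (Nat.mul_div_le (V r) 2)) (n' + 1)
  have hfin := PF_QF _ hP4 hQ
  have hK := KK_le (n' + 1) (2 * (r : ℝ))
  have hm' : (m : ℝ) = 2 * L * (3 ^ (n' + 1) * (2 * r + 1)) + 1 := by
    rw [hm]; push_cast; ring
  have hL0 : (0 : ℝ) ≤ L := Nat.cast_nonneg _
  rw [hm', ← hK] at hfin
  push_cast at hfin
  nlinarith

/-- There is no coarse equivalence between iterated lamplighters of different heights. -/
theorem main_coarse (H : GrpCat.{u}) [Infinite H] [Group.IsFinitelyPresented H] (S : Set H)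
    (hS1 : S.Finite) (hS2 : Subgroup.closure S = ⊤) {n k : ℕ} (hk : k < n)
    (f : iterL H n → iterL H k) (g : iterL H k → iterL H n) (L : ℕ)
    (hf : ∀ x x', (gm H S hS1 hS2 k).d (f x) (f x') ≤ L * (gm H S hS1 hS2 n).d x x' + L)
    (hg : ∀ y y', (gm H S hS1 hS2 n).d (g y) (g y') ≤ L * (gm H S hS1 hS2 k).d y y' + L)
    (hgf : ∀ x, (gm H S hS1 hS2 n).d (g (f x)) x ≤ L)
    (hfg : ∀ y, (gm H S hS1 hS2 k).d (f (g y)) y ≤ L) : False := by
  by_cases hT : ∃ Δ, TreeLike (gm H S hS1 hS2 0) Δ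
  · obtain ⟨Δ, hT⟩ := hT
    exact part_two H S hS1 hS2 hT hk f g L hf hgf
  · push Not at hT
    have : Group.IsFinitelyPresented (iterL H 0) := ‹Group.IsFinitelyPresented H›
    have hinv : ∀ a x y, (gm H S hS1 hS2 0).d (a * x) (a * y) = (gm H S hS1 hS2 0).d x y :=
      wGM_inv _ _
    obtain ⟨ℓ, h1, h2⟩ := exists_line (gm H S hS1 hS2 0) hinv hT
    obtain ⟨m0, hm0, hex⟩ := exact_of_fp (gm H S hS1 hS2 0) hinv
    exact part_one (tower H S hS1 hS2 n).1 (tower H S hS1 hS2 k).1
      (by rw [(tower H S hS1 hS2 n).2, (tower H S hS1 hS2 k).2]; exact hk) hm0 hex h1 h2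
      f g L hf hg hgf hfg

end Pool.Agent.TH86.IL
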