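import Pool.Agent.TH86.IL.Square

/-!
# Coarse embeddings of the base into a tower: lines lie near leaves
-/

set_option autoImplicit false

namespace Pool.Agent.TH86.IL

universe u

/-- Uniformly proper lines which are not separated by bounded cuts. -/
structure Line {H : Type u} (D : GM H) (ρ σ : ℕ → ℕ) (h : ℤ → H) : Prop where
  prop : ∀ r t t', D.d (h t) (h t') ≤ r → (t - t').natAbs ≤ ρ r
  is : ∀ s, Par D (σ s) s h h

theorem Line.far {H : Type u} {D : GM H} {ρ σ : ℕ → ℕ} {h : ℤ → H} (hl : Line D ρ σ h)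
    {B : ℕ} {t t' : ℤ} (ht : ρ B < (t - t').natAbs) : B < D.d (h t) (h t') := by
  by_contra hc
  have := hl.prop B t t' (by omega)
  omega

theorem Line.exists_far {H : Type u} {D : GM H} {ρ σ : ℕ → ℕ} {h : ℤ → H} (hl : Line D ρ σ h)
    (o : H) (R : ℕ) : ∃ t, R < D.d (h t) o := by
  by_contra hc
  push Not at hc
  have h1 := hc 0
  have h2 := hc ((ρ (2 * R) : ℤ) + 1)
  have h3 := D.d_tri (h 0) o (h ((ρ (2 * R) : ℤ) + 1))
  rw [D.d_symm o] at h3
  have h4 := hl.prop (2 * R) _ _ (show D.d (h 0) (h ((ρ (2 * R) : ℤ) + 1)) ≤ 2 * R by omega)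
  omega

section

variable {H X : Type u} {D : GM H} {E : GM X} (T : Tower D E)

theorem leaf_unique {ρ σ : ℕ → ℕ} {w w' : T.A → ZMod 2} (hw : {a | w a ≠ 0}.Finite)
    (hw' : {a | w' a ≠ 0}.Finite) {h h' : ℤ → H} (hl : Line D ρ σ h) {R : ℕ}
    (hR : ∀ t, E.d (T.pt w (h t)) (T.pt w' (h' t)) ≤ R) : w = w' := by
  by_contra hne
  obtain ⟨a, ha⟩ := Function.ne_iff.1 hne
  obtain ⟨t, ht⟩ := hl.exists_far (T.loc a) R
  have h1 := near_pt T hw hw' (hR t) ha
  have h2 := loc_pt T hw h1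
  omega

theorem leaf_E1 {m0 : ℕ} (hm0 : 1 ≤ m0) (hex : Exact1 D m0) (L : ℕ) : ∃ s0, ∀ σ, ∃ R,
    ∀ F : H → X, (∀ x y, E.d (F x) (F y) ≤ L * D.d x y + L) →
      (∀ x y, D.d x y ≤ L * E.d (F x) (F y) + L) →
    ∀ h h' : ℤ → H, Par D σ s0 h h' → ∀ a t t', ¬ T.near R (F (h t)) a →
      ¬ T.near R (F (h' t')) a → T.ps (F (h t)) a = T.ps (F (h' t')) a := by
  obtain ⟨S, hS⟩ := T.chain (L * m0 + L) (L * m0 + L)
  refine ⟨L * S + L, fun σ => ⟨(L * m0 + L) + (L * σ + L), ?_⟩⟩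
  intro F hF1 hF2 h h' hpar a t t' ht ht'
  have hU : ∀ u, (∃ c, D.d u c ≤ m0 ∧ T.ps (F u) a ≠ T.ps (F c) a) →
      T.near (L * m0 + L) (F u) a := by
    rintro u ⟨c, hc1, hc2⟩
    apply T.near_mono _ _ _ _ _ (T.near_of_ne _ _ _ hc2)
    have := hF1 u c
    have := Nat.mul_le_mul_left L hc1
    omega
  have hfar : ∀ (k : ℤ → H) (τ : ℤ), ¬ T.near ((L * m0 + L) + (L * σ + L)) (F (k τ)) a →
      ∀ u, (∃ c, D.d u c ≤ m0 ∧ T.ps (F u) a ≠ T.ps (F c) a) → σ < D.d u (k τ) := by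
    intro k τ hτ u hu
    by_contra hc
    apply hτ
    apply T.near_mono _ _ _ _ _ (T.near_tri _ _ (F (k τ)) _ (hU u hu))
    have h1 := hF1 u (k τ)
    have h2 : D.d u (k τ) ≤ σ := by omega
    have := Nat.mul_le_mul_left L h2
    omega
  refine n4 D hm0 hex (fun x => T.ps (F x) a) ?_ hpar (hfar h t ht) (hfar h' t' ht')
  intro x y hxy
  have h1 : Relation.ReflTransGen (fun x y => E.d x y ≤ L * m0 + L ∧
      D.d (T.loc a) (T.pr x) ≤ L * m0 + L ∧ D.d (T.loc a) (T.pr y) ≤ L * m0 + L) (F x) (F y) := by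
    induction hxy with
    | refl => exact .refl
    | tail _ hbc ih =>
      refine ih.tail ⟨?_, ?_, ?_⟩
      · have := Nat.mul_le_mul_left L hbc.2.2
        have := hF1 _ _ |>.trans (Nat.add_le_add_right this L)
        exact this
      · rw [D.d_symm]; exact T.near_loc _ _ _ (hU _ hbc.1)
      · rw [D.d_symm]; exact T.near_loc _ _ _ (hU _ hbc.2.1)
  have h2 := hS _ _ _ h1
  have h3 := hF2 x y
  have := Nat.mul_le_mul_left L h2
  omega

theorem leaf_E4 {m0 : ℕ} (hm0 : 1 ≤ m0) (hex : Exact1 D m0) (L s : ℕ) : ∃ s0, ∀ σ, ∃ σ',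
    ∀ F : H → X, (∀ x y, E.d (F x) (F y) ≤ L * D.d x y + L) →
      (∀ x y, D.d x y ≤ L * E.d (F x) (F y) + L) →
    ∀ h h' : ℤ → H, Par D σ s0 h h' →
      Par D σ' s (fun t => T.pr (F (h t))) (fun t => T.pr (F (h' t))) := by
  obtain ⟨S, hS⟩ := T.chain (s + (L * m0 + L)) (L * m0 + L)
  refine ⟨L * S + L, fun σ => ⟨s + (L * m0 + L) + (L * σ + L), ?_⟩⟩
  intro F hF1 hF2 h h' hpar o χ hχ t t' ht ht'
  have hpF : ∀ x y, D.d (T.pr (F x)) (T.pr (F y)) ≤ L * D.d x y + L := fun x y =>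
    (T.d_pr _ _).trans (hF1 x y)
  have hU : ∀ u, (∃ c, D.d u c ≤ m0 ∧ χ (T.pr (F u)) ≠ χ (T.pr (F c))) →
      D.d o (T.pr (F u)) ≤ s + (L * m0 + L) := by
    rintro u ⟨c, hc1, hc2⟩
    by_contra hc
    apply hc2
    refine const_far' D hχ (r := L * m0 + L) ?_ (by omega)
    have h1 := hpF u c
    have := Nat.mul_le_mul_left L hc1
    omega
  have hfar : ∀ (k : ℤ → H) (τ : ℤ), s + (L * m0 + L) + (L * σ + L) < D.d o (T.pr (F (k τ))) →
      ∀ u, (∃ c, D.d u c ≤ m0 ∧ χ (T.pr (F u)) ≠ χ (T.pr (F c))) → σ < D.d u (k τ) := by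
    intro k τ hτ u hu
    by_contra hc
    have h1 := hpF u (k τ)
    have h2 : D.d u (k τ) ≤ σ := by omega
    have := Nat.mul_le_mul_left L h2
    have h3 := hU u hu
    have h4 := D.d_tri o (T.pr (F u)) (T.pr (F (k τ)))
    omega
  refine n4 D hm0 hex (fun x => χ (T.pr (F x))) ?_ hpar (hfar h t ht) (hfar h' t' ht')
  intro x y hxy
  have h1 : Relation.ReflTransGen (fun x y => E.d x y ≤ L * m0 + L ∧
      D.d o (T.pr x) ≤ s + (L * m0 + L) ∧ D.d o (T.pr y) ≤ s + (L * m0 + L)) (F x) (F y) := by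
    induction hxy with
    | refl => exact .refl
    | tail _ hbc ih =>
      refine ih.tail ⟨?_, hU _ hbc.1, hU _ hbc.2.1⟩
      have := Nat.mul_le_mul_left L hbc.2.2
      have := hF1 _ _ |>.trans (Nat.add_le_add_right this L)
      exact this
  have h2 := hS _ _ _ h1
  have h3 := hF2 x y
  have := Nat.mul_le_mul_left L h2
  omega

/-- The leaf lemma. -/
theorem leaf_main {m0 : ℕ} (hm0 : 1 ≤ m0) (hex : Exact1 D m0) (L : ℕ) (ρ σ : ℕ → ℕ) :
    ∃ (ρ' σ' : ℕ → ℕ) (R R1 s0 : ℕ), ∀ F : H → X,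
      (∀ x y, E.d (F x) (F y) ≤ L * D.d x y + L) →
      (∀ x y, D.d x y ≤ L * E.d (F x) (F y) + L) →
    (∀ h, Line D ρ σ h → ∃ w : T.A → ZMod 2, {a | w a ≠ 0}.Finite ∧
      (∀ t a, ¬ T.near R (F (h t)) a → T.ps (F (h t)) a = w a) ∧
      (∀ t, E.d (F (h t)) (T.pt w (T.pr (F (h t)))) ≤ R1) ∧
      Line D ρ' σ' (fun t => T.pr (F (h t)))) ∧
    (∀ h h', Par D (σ s0) s0 h h' → ∀ a t t', ¬ T.near R (F (h t)) a →
      ¬ T.near R (F (h' t')) a → T.ps (F (h t)) a = T.ps (F (h' t')) a) := by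
  obtain ⟨s0, h0⟩ := leaf_E1 T hm0 hex L
  obtain ⟨R, hR⟩ := h0 (σ s0)
  choose s1 hs1 using fun s => leaf_E4 T hm0 hex L s
  choose σ' hσ' using fun s => hs1 s (σ (s1 s))
  choose Θ hΘ using fun r => T.proper R r
  refine ⟨fun r => ρ (L * Θ r + L), σ', R, Θ 0, s0, fun F hF1 hF2 => ⟨fun h hl => ?_, ?_⟩⟩
  · have hline : Line D (fun r => ρ (L * Θ r + L)) σ' (fun t => T.pr (F (h t))) := by
      refine ⟨fun r t t' hr => ?_, fun s => hσ' s F hF1 hF2 h h (hl.is _)⟩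
      apply hl.prop
      refine (hF2 _ _).trans ?_
      have h1 : E.d (F (h t)) (F (h t')) ≤ Θ r := by
        apply hΘ r _ _ hr
        intro a ha
        by_contra hc
        push Not at hc
        exact ha (hR F hF1 hF2 h h (hl.is s0) a t t' hc.1 hc.2)
      have := Nat.mul_le_mul_left L h1
      omega
    have hex' : ∀ a, ∃ t, ¬ T.near R (F (h t)) a := by
      intro a
      obtain ⟨t, ht⟩ := hline.exists_far (T.loc a) R
      refine ⟨t, fun hc => ?_⟩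
      have h2 : D.d (T.pr (F (h t))) (T.loc a) ≤ R := T.near_loc _ _ _ hc
      have h3 : R < D.d (T.pr (F (h t))) (T.loc a) := ht
      omega
    choose τ hτ using hex'
    have hval : ∀ t a, ¬ T.near R (F (h t)) a → T.ps (F (h t)) a = T.ps (F (h (τ a))) a :=
      fun t a hta => hR F hF1 hF2 h h (hl.is s0) a t (τ a) hta (hτ a)
    have hfin : {a | T.ps (F (h (τ a))) a ≠ 0}.Finite := by
      apply ((T.ps_fin (F (h 0))).union (T.near_fin R (F (h 0)))).subset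
      intro a ha
      by_cases hn : T.near R (F (h 0)) a
      · right; exact hn
      · left
        show T.ps (F (h 0)) a ≠ 0
        rw [hval 0 a hn]; exact ha
    refine ⟨fun a => T.ps (F (h (τ a))) a, hfin, hval, fun t => ?_, hline⟩
    apply hΘ 0
    · rw [T.pr_pt _ _ hfin, D.d_self]
    · intro a ha
      rw [T.ps_pt _ _ hfin] at ha
      left
      by_contra hc
      exact ha (hval t a hc)
  · intro h h' hp a t t'
    exact hR F hF1 hF2 h h' hp a t t'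

end

end Pool.Agent.TH86.IL
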