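import Pool.Agent.TH86.IL.Leaf

/-!
# No quasi-isometry between towers of different heights over a base with a line
-/

set_option autoImplicit false

namespace Pool.Agent.TH86.IL

universe u

section

variable {H X : Type u} {D : GM H} {E : GM X} (T : Tower D E)

theorem fin_add {A : Type u} {v w : A → ZMod 2} (hv : {a | v a ≠ 0}.Finite)
    (hw : {a | w a ≠ 0}.Finite) : {a | (v + w) a ≠ 0}.Finite := by
  apply (hv.union hw).subset
  intro a ha
  by_contra hc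
  simp only [Set.mem_union, Set.mem_ofPred_eq, not_or, not_not] at hc
  exact ha (by simp only [Pi.add_apply, hc.1, hc.2, add_zero])

open scoped Classical in
theorem fin_single {A : Type u} (a : A) :
    {b | (Pi.single a 1 : A → ZMod 2) b ≠ 0}.Finite := by
  apply (Set.finite_singleton a).subset
  intro b hb
  by_contra hc
  exact hb (Pi.single_eq_of_ne hc 1)

open scoped Classical in
/-- Toggling one lamp near the position. -/
theorem flip_dist {Θ : ℕ} (hΘ : ∀ g g', D.d (T.pr g) (T.pr g') ≤ 0 →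
      (∀ a, T.ps g a ≠ T.ps g' a → T.near 0 g a ∨ T.near 0 g' a) → E.d g g' ≤ Θ)
    {x : H} {a : T.A} (ha : T.near 0 (T.pt 0 x) a) {v : T.A → ZMod 2}
    (hv : {b | v b ≠ 0}.Finite) (hlow : ∀ b, T.lev b < T.lev a → v b = 0) :
    E.d (T.pt v x) (T.pt (v + Pi.single a 1) x) ≤ Θ := by
  have hv' := fin_add hv (fin_single a)
  have h0 : {b | (0 : T.A → ZMod 2) b ≠ 0}.Finite := by simp
  apply hΘ
  · rw [T.pr_pt _ _ hv, T.pr_pt _ _ hv', D.d_self]
  · intro b hb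
    rw [T.ps_pt _ _ hv, T.ps_pt _ _ hv'] at hb
    have hba : b = a := by
      by_contra hc
      apply hb
      simp only [Pi.add_apply, Pi.single_eq_of_ne hc, add_zero]
    subst hba
    left
    apply T.near_congr 0 _ _ _ _ _ ha
    · intro c hc
      rw [T.ps_pt _ _ hv, T.ps_pt _ _ h0, hlow c hc]
      rfl
    · rw [T.pr_pt _ _ hv, T.pr_pt _ _ h0]

end

open scoped Classical in
/-- There is no quasi-isometry from a tower to a tower of smaller height, over a base graph which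
is exact at some scale and contains a line whose ends are not separated. -/
theorem part_one {H X Y : Type u} {D : GM H} {EX : GM X} {EY : GM Y} (TX : Tower D EX)
    (TY : Tower D EY) (hn : TY.n < TX.n) {m0 : ℕ} (hm0 : 1 ≤ m0) (hex : Exact1 D m0)
    {ℓ : ℤ → H} (hℓ : ∀ i j, D.d (ℓ i) (ℓ j) = (i - j).natAbs)
    (hℓ' : ∀ s, Par D (3 * s) s ℓ ℓ) (f : X → Y) (g : Y → X) (L : ℕ)
    (hf : ∀ x x', EY.d (f x) (f x') ≤ L * EX.d x x' + L)
    (hg : ∀ y y', EX.d (g y) (g y') ≤ L * EY.d y y' + L)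
    (hgf : ∀ x, EX.d (g (f x)) x ≤ L) (hfg : ∀ y, EY.d (f (g y)) y ≤ L) : False := by
  -- the base line
  have line0 : Line D id (fun s => 3 * s) ℓ :=
    ⟨fun r t t' h => by rw [hℓ] at h; exact h, hℓ'⟩
  -- embeddings of the base
  have hF1 : ∀ v, {a | v a ≠ 0}.Finite → ∀ x y,
      EY.d (f (TX.pt v x)) (f (TX.pt v y)) ≤ (3 * L) * D.d x y + 3 * L := by
    intro v hv x y
    have h1 := hf (TX.pt v x) (TX.pt v y)
    have h2 := Nat.mul_le_mul_left L (TX.d_pt v x y hv)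
    have h3 : (3 * L) * D.d x y = L * D.d x y + 2 * (L * D.d x y) := by ring
    omega
  have hF2 : ∀ v, {a | v a ≠ 0}.Finite → ∀ x y,
      D.d x y ≤ (3 * L) * EY.d (f (TX.pt v x)) (f (TX.pt v y)) + 3 * L := by
    intro v hv x y
    have h1 := TX.d_pr (TX.pt v x) (TX.pt v y)
    rw [TX.pr_pt _ _ hv, TX.pr_pt _ _ hv] at h1
    have h2 := EX.d_tri (TX.pt v x) (g (f (TX.pt v x))) (TX.pt v y)
    have h3 := EX.d_tri (g (f (TX.pt v x))) (g (f (TX.pt v y))) (TX.pt v y)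
    have h4 := hgf (TX.pt v x)
    rw [EX.d_symm] at h4
    have h5 := hgf (TX.pt v y)
    have h6 := hg (f (TX.pt v x)) (f (TX.pt v y))
    have h7 : (3 * L) * EY.d (f (TX.pt v x)) (f (TX.pt v y)) =
      L * EY.d (f (TX.pt v x)) (f (TX.pt v y)) +
        2 * (L * EY.d (f (TX.pt v x)) (f (TX.pt v y))) := by ring
    omega
  have hG1 : ∀ w, {a | w a ≠ 0}.Finite → ∀ x y,
      EX.d (g (TY.pt w x)) (g (TY.pt w y)) ≤ (3 * L) * D.d x y + 3 * L := by
    intro v hv x y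
    have h1 := hg (TY.pt v x) (TY.pt v y)
    have h2 := Nat.mul_le_mul_left L (TY.d_pt v x y hv)
    have h3 : (3 * L) * D.d x y = L * D.d x y + 2 * (L * D.d x y) := by ring
    omega
  have hG2 : ∀ w, {a | w a ≠ 0}.Finite → ∀ x y,
      D.d x y ≤ (3 * L) * EX.d (g (TY.pt w x)) (g (TY.pt w y)) + 3 * L := by
    intro v hv x y
    have h1 := TY.d_pr (TY.pt v x) (TY.pt v y)
    rw [TY.pr_pt _ _ hv, TY.pr_pt _ _ hv] at h1
    have h2 := EY.d_tri (TY.pt v x) (f (g (TY.pt v x))) (TY.pt v y)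
    have h3 := EY.d_tri (f (g (TY.pt v x))) (f (g (TY.pt v y))) (TY.pt v y)
    have h4 := hfg (TY.pt v x)
    rw [EY.d_symm] at h4
    have h5 := hfg (TY.pt v y)
    have h6 := hf (g (TY.pt v x)) (g (TY.pt v y))
    have h7 : (3 * L) * EX.d (g (TY.pt v x)) (g (TY.pt v y)) =
      L * EX.d (g (TY.pt v x)) (g (TY.pt v y)) +
        2 * (L * EX.d (g (TY.pt v x)) (g (TY.pt v y))) := by ring
    omega
  -- the two applications of the leaf lemma
  obtain ⟨ρ1, σ1, Ra, Ra1, sa, leafY⟩ :=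
    leaf_main TY hm0 hex (3 * L) id (fun s => 3 * s)
  obtain ⟨ρ2, σ2, Rb, Rb1, sb, leafX⟩ := leaf_main TX hm0 hex (3 * L) ρ1 σ1
  have hW : ∀ v : TX.A → ZMod 2, ∃ w : TY.A → ZMod 2, {a | v a ≠ 0}.Finite →
      {a | w a ≠ 0}.Finite ∧
      (∀ t, EY.d (f (TX.pt v (ℓ t))) (TY.pt w (TY.pr (f (TX.pt v (ℓ t))))) ≤ Ra1) ∧
      Line D ρ1 σ1 (fun t => TY.pr (f (TX.pt v (ℓ t)))) := by
    intro v
    by_cases hv : {a | v a ≠ 0}.Finite
    · obtain ⟨w, hw1, _, hw2, hw3⟩ :=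
        (leafY (fun x => f (TX.pt v x)) (hF1 v hv) (hF2 v hv)).1 ℓ line0
      exact ⟨w, fun _ => ⟨hw1, hw2, hw3⟩⟩
    · exact ⟨0, fun h => absurd h hv⟩
  choose W hW using hW
  have hU : ∀ (w : TY.A → ZMod 2) (h : ℤ → H), ∃ u : TX.A → ZMod 2,
      {a | w a ≠ 0}.Finite → Line D ρ1 σ1 h → {a | u a ≠ 0}.Finite ∧
      (∀ t a, ¬ TX.near Rb (g (TY.pt w (h t))) a → TX.ps (g (TY.pt w (h t))) a = u a) ∧
      (∀ t, EX.d (g (TY.pt w (h t))) (TX.pt u (TX.pr (g (TY.pt w (h t))))) ≤ Rb1) ∧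
      Line D ρ2 σ2 (fun t => TX.pr (g (TY.pt w (h t)))) := by
    intro w h
    by_cases hc : {a | w a ≠ 0}.Finite ∧ Line D ρ1 σ1 h
    · obtain ⟨u, hu⟩ := (leafX (fun x => g (TY.pt w x)) (hG1 w hc.1) (hG2 w hc.1)).1 h hc.2
      exact ⟨u, fun _ _ => hu⟩
    · exact ⟨0, fun h1 h2 => absurd ⟨h1, h2⟩ hc⟩
  choose U hU using hU
  -- the H-line of `v`
  set hv : (TX.A → ZMod 2) → ℤ → H := fun v t => TY.pr (f (TX.pt v (ℓ t))) with hvdef
  -- K1
  have K1 : ∀ v, {a | v a ≠ 0}.Finite → U (W v) (hv v) = v := by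
    intro v hvf
    obtain ⟨w1, w2, w3⟩ := hW v hvf
    obtain ⟨u1, _, u3, u4⟩ := hU (W v) (hv v) w1 w3
    apply leaf_unique TX u1 hvf (h' := ℓ) u4 (R := Rb1 + (L * Ra1 + L) + L)
    intro t
    have t1 := EX.d_tri (TX.pt (U (W v) (hv v)) (TX.pr (g (TY.pt (W v) (hv v t)))))
      (g (TY.pt (W v) (hv v t))) (TX.pt v (ℓ t))
    have t2 := u3 t
    rw [EX.d_symm] at t2
    have t3 := EX.d_tri (g (TY.pt (W v) (hv v t))) (g (f (TX.pt v (ℓ t)))) (TX.pt v (ℓ t))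
    have t4 := hgf (TX.pt v (ℓ t))
    have t5 := hg (TY.pt (W v) (hv v t)) (f (TX.pt v (ℓ t)))
    have t6 : EY.d (TY.pt (W v) (hv v t)) (f (TX.pt v (ℓ t))) ≤ Ra1 := by
      rw [EY.d_symm]; exact w2 t
    have t7 := Nat.mul_le_mul_left L t6
    omega
  -- K2
  have K2 : ∀ w, {a | w a ≠ 0}.Finite → ∀ h h', Line D ρ1 σ1 h → Line D ρ1 σ1 h' →
      Par D (σ1 sb) sb h h' → U w h = U w h' := by
    intro w hw h h' hl hl' hp
    obtain ⟨_, u2, _, u4⟩ := hU w h hw hl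
    obtain ⟨_, v2, _, v4⟩ := hU w h' hw hl'
    funext a
    obtain ⟨t, ht⟩ := u4.exists_far (TX.loc a) Rb
    obtain ⟨t', ht'⟩ := v4.exists_far (TX.loc a) Rb
    have n1 : ¬ TX.near Rb (g (TY.pt w (h t))) a := by
      intro hc
      have h2 : D.d (TX.pr (g (TY.pt w (h t)))) (TX.loc a) ≤ Rb := TX.near_loc _ _ _ hc
      have h3 : Rb < D.d (TX.pr (g (TY.pt w (h t)))) (TX.loc a) := ht
      omega
    have n2 : ¬ TX.near Rb (g (TY.pt w (h' t'))) a := by
      intro hc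
      have h2 : D.d (TX.pr (g (TY.pt w (h' t')))) (TX.loc a) ≤ Rb := TX.near_loc _ _ _ hc
      have h3 : Rb < D.d (TX.pr (g (TY.pt w (h' t')))) (TX.loc a) := ht'
      omega
    rw [← u2 t a n1, ← v2 t' a n2]
    exact (leafX (fun x => g (TY.pt w x)) (hG1 w hw) (hG2 w hw)).2 h h' hp a t t' n1 n2
  -- constants
  obtain ⟨Θ0, hΘ0⟩ := TX.proper 0 0
  set r1 := L * Θ0 + L + 2 * Ra1 with hr1
  obtain ⟨Θ1, hΘ1⟩ := TY.proper r1 0
  set r2 := 2 * r1 + Θ1 with hr2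
  set r3 := L * r2 + L + 2 * Rb1 with hr3
  set BY := 100 * (r1 + sb + σ1 sb + 1) with hBY
  set BX := 100 * (r3 + 0 + σ2 0 + 1) with hBX
  set N : ℤ := ((ρ1 BY + ρ2 BX + 1 : ℕ) : ℤ) with hN
  -- lamps
  have hp : ∀ i : Fin TX.n, ∃ a, TX.lev a = i ∧ TX.near 0 (TX.pt 0 (ℓ 0)) a := fun i => by
    obtain ⟨a, h1, _, h2⟩ := TX.lamps i i.2 (ℓ 0)
    exact ⟨a, h1, h2⟩
  have hq : ∀ i : Fin TX.n, ∃ a, TX.lev a = i ∧ TX.near 0 (TX.pt 0 (ℓ N)) a := fun i => by
    obtain ⟨a, h1, _, h2⟩ := TX.lamps i i.2 (ℓ N)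
    exact ⟨a, h1, h2⟩
  choose ap hap1 hap2 using hp
  choose aq haq1 haq2 using hq
  set vp : Fin TX.n → TX.A → ZMod 2 := fun i => Pi.single (ap i) 1 with hvp
  set vq : Fin TX.n → TX.A → ZMod 2 := fun i => Pi.single (aq i) 1 with hvq
  have f0 : {b | (0 : TX.A → ZMod 2) b ≠ 0}.Finite := by simp
  have fp : ∀ i, {b | vp i b ≠ 0}.Finite := fun i => fin_single _
  have fq : ∀ i, {b | vq i b ≠ 0}.Finite := fun i => fin_single _
  have fpq : ∀ i, {b | (vp i + vq i) b ≠ 0}.Finite := fun i => fin_add (fp i) (fq i)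
  have np : ∀ i, vp i ≠ 0 := fun i h => by
    have := congrFun h (ap i)
    simp [hvp] at this
  have nq : ∀ i, vq i ≠ 0 := fun i h => by
    have := congrFun h (aq i)
    simp [hvq] at this
  have lowp : ∀ (i : Fin TX.n) b, TX.lev b < i → vp i b = 0 := fun i b hb => by
    have : b ≠ ap i := fun h => by rw [h, hap1] at hb; omega
    exact Pi.single_eq_of_ne this 1
  have lowq : ∀ (i : Fin TX.n) b, TX.lev b < i → vq i b = 0 := fun i b hb => by
    have : b ≠ aq i := fun h => by rw [h, haq1] at hb; omega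
    exact Pi.single_eq_of_ne this 1
  have levp : ∀ (i : Fin TX.n) b, vp i b ≠ 0 → TX.lev b = i := fun i b hb => by
    by_contra hc
    apply hb
    have : b ≠ ap i := fun h => hc (by rw [h, hap1])
    exact Pi.single_eq_of_ne this 1
  have levq : ∀ (i : Fin TX.n) b, vq i b ≠ 0 → TX.lev b = i := fun i b hb => by
    by_contra hc
    apply hb
    have : b ≠ aq i := fun h => hc (by rw [h, haq1])
    exact Pi.single_eq_of_ne this 1
  -- closeness upstairs and downstairs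
  have push : ∀ v v', {a | v a ≠ 0}.Finite → {a | v' a ≠ 0}.Finite → ∀ t,
      EX.d (TX.pt v (ℓ t)) (TX.pt v' (ℓ t)) ≤ Θ0 →
      EY.d (TY.pt (W v) (hv v t)) (TY.pt (W v') (hv v' t)) ≤ r1 := by
    intro v v' fv fv' t h
    have t1 := EY.d_tri (TY.pt (W v) (hv v t)) (f (TX.pt v (ℓ t))) (TY.pt (W v') (hv v' t))
    have t2 := EY.d_tri (f (TX.pt v (ℓ t))) (f (TX.pt v' (ℓ t))) (TY.pt (W v') (hv v' t))
    have t3 : EY.d (TY.pt (W v) (hv v t)) (f (TX.pt v (ℓ t))) ≤ Ra1 := by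
      rw [EY.d_symm]; exact (hW v fv).2.1 t
    have t4 : EY.d (f (TX.pt v' (ℓ t))) (TY.pt (W v') (hv v' t)) ≤ Ra1 := (hW v' fv').2.1 t
    have t5 := hf (TX.pt v (ℓ t)) (TX.pt v' (ℓ t))
    have t6 := Nat.mul_le_mul_left L h
    omega
  have farY : ∀ v, {a | v a ≠ 0}.Finite → BY < D.d (hv v 0) (hv v N) := by
    intro v fv
    apply (hW v fv).2.2.far
    rw [hN]
    omega
  -- the square for level `i`
  have sq : ∀ i : Fin TX.n, ∃ j, (∀ a, W (vp i) a ≠ W 0 a → TY.lev a = j) ∧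
      (∀ a, W (vq i) a ≠ W 0 a → TY.lev a = j) ∧ W (vp i) ≠ W 0 ∧ W (vq i) ≠ W 0 ∧
      Par D (σ1 sb) sb (hv 0) (hv (vp i)) ∧ Par D (σ1 sb) sb (hv 0) (hv (vq i)) := by
    intro i
    have b1 : EX.d (TX.pt 0 (ℓ 0)) (TX.pt (vp i) (ℓ 0)) ≤ Θ0 := by
      have := flip_dist TX hΘ0 (hap2 i) f0 (fun _ _ => rfl)
      rwa [zero_add] at this
    have b2 : EX.d (TX.pt 0 (ℓ N)) (TX.pt (vq i) (ℓ N)) ≤ Θ0 := by
      have := flip_dist TX hΘ0 (haq2 i) f0 (fun _ _ => rfl)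
      rwa [zero_add] at this
    have b3 : EX.d (TX.pt (vp i) (ℓ N)) (TX.pt (vp i + vq i) (ℓ N)) ≤ Θ0 :=
      flip_dist TX hΘ0 (haq2 i) (fp i) (fun b hb => lowp i b (by rw [haq1] at hb; exact hb))
    have b4 : EX.d (TX.pt (vq i) (ℓ 0)) (TX.pt (vp i + vq i) (ℓ 0)) ≤ Θ0 := by
      rw [add_comm]
      exact flip_dist TX hΘ0 (hap2 i) (fq i) (fun b hb => lowq i b (by rw [hap1] at hb; exact hb))
    have w0 := hW 0 f0
    have wp := hW (vp i) (fp i)
    have wq := hW (vq i) (fq i)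
    have wpq := hW (vp i + vq i) (fpq i)
    rcases square TY (r := r1) (s := sb) (σ := σ1 sb) (B := BY) le_rfl w0.1 wp.1 wq.1 wpq.1
      (w0.2.2.is sb) (wp.2.2.is sb) (wq.2.2.is sb) (wpq.2.2.is sb)
      (push 0 (vp i) f0 (fp i) 0 b1) (push 0 (vq i) f0 (fq i) N b2)
      (push (vp i) (vp i + vq i) (fp i) (fpq i) N b3)
      (push (vq i) (vp i + vq i) (fq i) (fpq i) 0 b4)
      (farY 0 f0) (farY (vp i) (fp i)) (farY (vq i) (fq i)) with h | h | h
    · exfalso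
      apply np i
      rw [← K1 (vp i) (fp i), h.1,
        ← K2 (W 0) w0.1 (hv 0) (hv (vp i)) w0.2.2 wp.2.2 h.2, K1 0 f0]
    · exfalso
      apply nq i
      rw [← K1 (vq i) (fq i), h.1,
        ← K2 (W 0) w0.1 (hv 0) (hv (vq i)) w0.2.2 wq.2.2 h.2, K1 0 f0]
    · exact h
  choose j hj using sq
  have hjlt : ∀ i, j i < TY.n := by
    intro i
    obtain ⟨a, ha⟩ := Function.ne_iff.1 (hj i).2.2.1
    rw [← (hj i).1 a ha]
    exact TY.lev_lt a
  -- pigeonhole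
  obtain ⟨i, i', hii, hjj⟩ := Fintype.exists_ne_map_eq_of_card_lt
    (fun i : Fin TX.n => (⟨j i, hjlt i⟩ : Fin TY.n)) (by simpa using hn)
  have hjj' : j i = j i' := by simpa using congrArg Fin.val hjj
  obtain ⟨j1, _, j3, _, j5, _⟩ := hj i
  obtain ⟨_, k2, _, k4, _, k6⟩ := hj i'
  rw [← hjj'] at k2
  have w0 := hW 0 f0
  have wp := hW (vp i) (fp i)
  have wq := hW (vq i') (fq i')
  set w00 := W 0 with hw00
  set w10 := W (vp i) with hw10
  set w01 := W (vq i') with hw01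
  set w11 := w10 + w01 + w00 with hw11
  have f11 : {a | w11 a ≠ 0}.Finite := fin_add (fin_add wp.1 wq.1) w0.1
  set h := hv 0 with hh
  have c1 : EY.d (TY.pt w00 (h 0)) (TY.pt w10 (hv (vp i) 0)) ≤ r1 := by
    apply push 0 (vp i) f0 (fp i) 0
    have := flip_dist TX hΘ0 (hap2 i) f0 (fun _ _ => rfl)
    rwa [zero_add] at this
  have c2 : EY.d (TY.pt w00 (h N)) (TY.pt w01 (hv (vq i') N)) ≤ r1 := by
    apply push 0 (vq i') f0 (fq i') N
    have := flip_dist TX hΘ0 (haq2 i') f0 (fun _ _ => rfl)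
    rwa [zero_add] at this
  have d1 : EY.d (TY.pt w00 (h 0)) (TY.pt w10 (h 0)) ≤ r2 := by
    have t1 := EY.d_tri (TY.pt w00 (h 0)) (TY.pt w10 (hv (vp i) 0)) (TY.pt w10 (h 0))
    have t2 := TY.d_pt w10 (hv (vp i) 0) (h 0) wp.1
    have t3 := dist_pt TY w0.1 wp.1 c1
    rw [D.d_symm] at t3
    omega
  have d2 : EY.d (TY.pt w00 (h N)) (TY.pt w01 (h N)) ≤ r2 := by
    have t1 := EY.d_tri (TY.pt w00 (h N)) (TY.pt w01 (hv (vq i') N)) (TY.pt w01 (h N))
    have t2 := TY.d_pt w01 (hv (vq i') N) (h N) wq.1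
    have t3 := dist_pt TY w0.1 wq.1 c2
    rw [D.d_symm] at t3
    omega
  have two : ∀ x : ZMod 2, x + x = 0 := fun x => CharTwo.add_self_eq_zero x
  have d3 : EY.d (TY.pt w10 (h N)) (TY.pt w11 (h N)) ≤ r2 := by
    refine le_trans (hΘ1 _ _ ?_ ?_) (by omega)
    · rw [TY.pr_pt _ _ wp.1, TY.pr_pt _ _ f11, D.d_self]
    · intro a ha
      rw [TY.ps_pt _ _ wp.1, TY.ps_pt _ _ f11] at ha
      have ha' : w01 a ≠ w00 a := by
        intro hc
        apply ha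
        rw [hw11]
        simp only [Pi.add_apply]
        rw [hc, add_assoc, two, add_zero]
      have n1 := near_pt TY w0.1 wq.1 c2 (Ne.symm ha')
      left
      apply TY.near_congr _ _ _ _ _ _ n1
      · intro b hb
        rw [TY.ps_pt _ _ w0.1, TY.ps_pt _ _ wp.1]
        by_contra hc
        have e1 := j1 b (Ne.symm hc)
        have e2 := k2 a ha'
        omega
      · rw [TY.pr_pt _ _ w0.1, TY.pr_pt _ _ wp.1]
  have d4 : EY.d (TY.pt w01 (h 0)) (TY.pt w11 (h 0)) ≤ r2 := by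
    refine le_trans (hΘ1 _ _ ?_ ?_) (by omega)
    · rw [TY.pr_pt _ _ wq.1, TY.pr_pt _ _ f11, D.d_self]
    · intro a ha
      rw [TY.ps_pt _ _ wq.1, TY.ps_pt _ _ f11] at ha
      have ha' : w10 a ≠ w00 a := by
        intro hc
        apply ha
        rw [hw11]
        simp only [Pi.add_apply]
        rw [hc, add_comm (w00 a), add_assoc, two, add_zero]
      have n1 := near_pt TY w0.1 wp.1 c1 (Ne.symm ha')
      left
      apply TY.near_congr _ _ _ _ _ _ n1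
      · intro b hb
        rw [TY.ps_pt _ _ w0.1, TY.ps_pt _ _ wq.1]
        by_contra hc
        have e1 := k2 b (Ne.symm hc)
        have e2 := j1 a ha'
        omega
      · rw [TY.pr_pt _ _ w0.1, TY.pr_pt _ _ wq.1]
  -- back to `X`
  have hline : Line D ρ1 σ1 h := w0.2.2
  have u00 := hU w00 h w0.1 hline
  have u10 := hU w10 h wp.1 hline
  have u01 := hU w01 h wq.1 hline
  have u11 := hU w11 h f11 hline
  have pull : ∀ w w' t, {a | w a ≠ 0}.Finite → {a | w' a ≠ 0}.Finite →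
      EY.d (TY.pt w (h t)) (TY.pt w' (h t)) ≤ r2 →
      EX.d (TX.pt (U w h) (TX.pr (g (TY.pt w (h t)))))
        (TX.pt (U w' h) (TX.pr (g (TY.pt w' (h t))))) ≤ r3 := by
    intro w w' t fw fw' hd
    have t1 := EX.d_tri (TX.pt (U w h) (TX.pr (g (TY.pt w (h t))))) (g (TY.pt w (h t)))
      (TX.pt (U w' h) (TX.pr (g (TY.pt w' (h t)))))
    have t2 := EX.d_tri (g (TY.pt w (h t))) (g (TY.pt w' (h t)))
      (TX.pt (U w' h) (TX.pr (g (TY.pt w' (h t)))))
    have t3 := (hU w h fw hline).2.2.1 t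
    rw [EX.d_symm] at t3
    have t4 := (hU w' h fw' hline).2.2.1 t
    have t5 := hg (TY.pt w (h t)) (TY.pt w' (h t))
    have t6 := Nat.mul_le_mul_left L hd
    omega
  have farX : ∀ w, {a | w a ≠ 0}.Finite →
      BX < D.d (TX.pr (g (TY.pt w (h 0)))) (TX.pr (g (TY.pt w (h N)))) := by
    intro w fw
    apply (hU w h fw hline).2.2.2.far (t := 0) (t' := N)
    rw [hN]
    omega
  have e00 : U w00 h = 0 := K1 0 f0
  have e10 : U w10 h = vp i := by
    rw [K2 w10 wp.1 h (hv (vp i)) hline wp.2.2 j5, K1 (vp i) (fp i)]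
  have e01 : U w01 h = vq i' := by
    rw [K2 w01 wq.1 h (hv (vq i')) hline wq.2.2 k6, K1 (vq i') (fq i')]
  rcases square TX (r := r3) (s := 0) (σ := σ2 0) (B := BX) le_rfl u00.1 u10.1 u01.1 u11.1
      (h00 := fun t => TX.pr (g (TY.pt w00 (h t)))) (h10 := fun t => TX.pr (g (TY.pt w10 (h t))))
      (h01 := fun t => TX.pr (g (TY.pt w01 (h t)))) (h11 := fun t => TX.pr (g (TY.pt w11 (h t))))
      (tp := 0) (tq := N)
      (u00.2.2.2.is 0) (u10.2.2.2.is 0) (u01.2.2.2.is 0) (u11.2.2.2.is 0)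
      (pull _ _ 0 w0.1 wp.1 d1) (pull _ _ N w0.1 wq.1 d2) (pull _ _ N wp.1 f11 d3)
      (pull _ _ 0 wq.1 f11 d4) (farX _ w0.1) (farX _ wp.1) (farX _ wq.1) with hh | hh | hh
  · rw [e10, e00] at hh
    exact np i hh.1
  · rw [e01, e00] at hh
    exact nq i' hh.1
  · obtain ⟨l, l1, l2, _⟩ := hh
    rw [e10, e00] at l1
    rw [e01, e00] at l2
    have m1 : TX.lev (ap i) = l := l1 (ap i) (by simp [hvp])
    have m2 : TX.lev (aq i') = l := l2 (aq i') (by simp [hvq])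
    rw [hap1] at m1
    rw [haq1] at m2
    exact hii (Fin.ext (by omega))

end Pool.Agent.TH86.IL
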