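import Pool.Agent.TH86.IL.Iter

/-!
# From quasi-isometries to integer constants, and change of generating sets
-/

set_option autoImplicit false

open scoped Pointwise

namespace Pool.Agent.TH86.IL

universe u v

theorem word_compare {G : Type u} [Group G] {S T : Set G} (hS : Subgroup.closure S = ⊤)
    (hTf : T.Finite) (hT : Subgroup.closure T = ⊤) :
    ∃ M : ℕ, ∀ x y : G, wordDist S x y ≤ M * wordDist T x y := by
  classical
  obtain ⟨M, hM⟩ : ∃ M, ∀ t ∈ sy T, wordDist S 1 t ≤ M := by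
    refine ⟨(sy_finite hTf).toFinset.sup (fun t => wordDist S 1 t), fun t ht => ?_⟩
    exact Finset.le_sup (f := fun t => wordDist S 1 t) (by simpa using ht)
  have key : ∀ n (g : G), g ∈ sy T ^ n → g ∈ sy S ^ (M * n) := by
    intro n
    induction n with
    | zero => intro g hg; simpa using hg
    | succ n ih =>
      intro g hg
      rw [pow_succ] at hg
      obtain ⟨a, ha, b, hb, rfl⟩ := hg
      have h2 : b ∈ sy S ^ M := by
        have := (wordDist_le_iff hS 1 b M).1 (hM b hb)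
        simpa using this
      rw [Nat.mul_succ, pow_add]
      exact Set.mul_mem_mul (ih a ha) h2
  refine ⟨M, fun x y => ?_⟩
  rw [wordDist_le_iff hS]
  exact key _ _ ((wordDist_le_iff hT x y _).1 le_rfl)

/-- A quasi-isometry gives maps in both directions with integer constants, for the word metrics of
arbitrary finite generating sets. -/
theorem qi_coarse {G₁ : Type u} {G₂ : Type v} [Group G₁] [Group G₂] (h : QuasiIsometric G₁ G₂)
    {S₁ : Set G₁} (hSf : S₁.Finite) (hS : Subgroup.closure S₁ = ⊤)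
    {T₁ : Set G₂} (hTf : T₁.Finite) (hT : Subgroup.closure T₁ = ⊤) :
    ∃ (f : G₁ → G₂) (g : G₂ → G₁) (L : ℕ),
      (∀ x x', wordDist T₁ (f x) (f x') ≤ L * wordDist S₁ x x' + L) ∧
      (∀ y y', wordDist S₁ (g y) (g y') ≤ L * wordDist T₁ y y' + L) ∧
      (∀ x, wordDist S₁ (g (f x)) x ≤ L) ∧ (∀ y, wordDist T₁ (f (g y)) y ≤ L) := by
  obtain ⟨S, T, hSf', hS', hTf', hT', f, L, C, hL, hC, hf, hsurj⟩ := h
  set dS := wordDist S with hdS
  set dT := wordDist T with hdT
  have symmS : ∀ x y, dS x y = dS y x := (wGM S hSf' hS').d_symm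
  have symmT : ∀ x y, dT x y = dT y x := (wGM T hTf' hT').d_symm
  have triT : ∀ x y z, dT x z ≤ dT x y + dT y z := (wGM T hTf' hT').d_tri
  obtain ⟨a1, ha1⟩ := word_compare hS hSf' hS'
  obtain ⟨a2, ha2⟩ := word_compare hS' hSf hS
  obtain ⟨a3, ha3⟩ := word_compare hT hTf' hT'
  obtain ⟨a4, ha4⟩ := word_compare hT' hTf hT
  set a := a1 + a2 + a3 + a4 with ha
  have b1 : ∀ x y, wordDist S₁ x y ≤ a * dS x y := fun x y =>
    (ha1 x y).trans (Nat.mul_le_mul_right _ (by omega))
  have b2 : ∀ x y, dS x y ≤ a * wordDist S₁ x y := fun x y =>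
    (ha2 x y).trans (Nat.mul_le_mul_right _ (by omega))
  have b3 : ∀ x y, wordDist T₁ x y ≤ a * dT x y := fun x y =>
    (ha3 x y).trans (Nat.mul_le_mul_right _ (by omega))
  have b4 : ∀ x y, dT x y ≤ a * wordDist T₁ x y := fun x y =>
    (ha4 x y).trans (Nat.mul_le_mul_right _ (by omega))
  obtain ⟨M, hM1, hM2, hM3⟩ : ∃ M : ℕ, L ≤ M ∧ L * C ≤ M ∧ C ≤ M := by
    refine ⟨⌈L⌉₊ + ⌈L * C⌉₊ + ⌈C⌉₊, ?_, ?_, ?_⟩
    · push_cast
      have := Nat.le_ceil L
      have h2 : (0 : ℝ) ≤ (⌈L * C⌉₊ : ℝ) := Nat.cast_nonneg _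
      have h3 : (0 : ℝ) ≤ (⌈C⌉₊ : ℝ) := Nat.cast_nonneg _
      linarith
    · push_cast
      have := Nat.le_ceil (L * C)
      have h2 : (0 : ℝ) ≤ (⌈L⌉₊ : ℝ) := Nat.cast_nonneg _
      have h3 : (0 : ℝ) ≤ (⌈C⌉₊ : ℝ) := Nat.cast_nonneg _
      linarith
    · push_cast
      have := Nat.le_ceil C
      have h2 : (0 : ℝ) ≤ (⌈L⌉₊ : ℝ) := Nat.cast_nonneg _
      have h3 : (0 : ℝ) ≤ (⌈L * C⌉₊ : ℝ) := Nat.cast_nonneg _
      linarith
  have f1 : ∀ x y, dT (f x) (f y) ≤ M * dS x y + M := by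
    intro x y
    have h1 := (hf x y).2
    have h2 : (0 : ℝ) ≤ (dS x y : ℝ) := Nat.cast_nonneg _
    have h3 : L * (dS x y : ℝ) ≤ M * dS x y := mul_le_mul_of_nonneg_right hM1 h2
    have h4 : (dT (f x) (f y) : ℝ) ≤ M * dS x y + M := by linarith
    exact_mod_cast h4
  have f2 : ∀ x y, dS x y ≤ M * dT (f x) (f y) + M := by
    intro x y
    have h1 := (hf x y).1
    have h2 : (0 : ℝ) ≤ (dT (f x) (f y) : ℝ) := Nat.cast_nonneg _
    have hL0 : (0 : ℝ) < L := by linarith
    have h5 : L * (L⁻¹ * (dS x y : ℝ) - C) ≤ L * dT (f x) (f y) :=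
      mul_le_mul_of_nonneg_left h1 hL0.le
    have h6 : L * (L⁻¹ * (dS x y : ℝ) - C) = dS x y - L * C := by
      field_simp
    rw [h6] at h5
    have h3 : L * (dT (f x) (f y) : ℝ) ≤ M * dT (f x) (f y) := mul_le_mul_of_nonneg_right hM1 h2
    have h4 : (dS x y : ℝ) ≤ M * dT (f x) (f y) + M := by linarith
    exact_mod_cast h4
  choose g hg using hsurj
  have f3 : ∀ z, dT (f (g z)) z ≤ M := by
    intro z
    have h1 := hg z
    have h4 : (dT (f (g z)) z : ℝ) ≤ M := by linarith
    exact_mod_cast h4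
  refine ⟨f, g, a * (M * a + 2 * M * M + M), fun x x' => ?_, fun y y' => ?_, fun x => ?_,
    fun y => ?_⟩
  · have h1 := b3 (f x) (f x')
    have h2 := f1 x x'
    have h3 := b2 x x'
    calc wordDist T₁ (f x) (f x') ≤ a * dT (f x) (f x') := h1
      _ ≤ a * (M * (a * wordDist S₁ x x') + M) := by gcongr; exact h2.trans (by gcongr)
      _ ≤ a * (M * a + 2 * M * M + M) * wordDist S₁ x x' + a * (M * a + 2 * M * M + M) := by
        have : a * (M * (a * wordDist S₁ x x') + M) = (a * (M * a)) * wordDist S₁ x x' + a * M := by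
          ring
        rw [this]
        have e1 : a * (M * a) ≤ a * (M * a + 2 * M * M + M) :=
          Nat.mul_le_mul_left _ (by omega)
        have e2 : a * M ≤ a * (M * a + 2 * M * M + M) := Nat.mul_le_mul_left _ (by omega)
        gcongr
  · have h1 := b1 (g y) (g y')
    have h2 := f2 (g y) (g y')
    have h3 : dT (f (g y)) (f (g y')) ≤ dT y y' + 2 * M := by
      have t1 := triT (f (g y)) y (f (g y'))
      have t2 := triT y y' (f (g y'))
      have t3 := f3 y
      have t4 := f3 y'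
      rw [symmT] at t4
      omega
    have h4 := b4 y y'
    calc wordDist S₁ (g y) (g y') ≤ a * dS (g y) (g y') := h1
      _ ≤ a * (M * (a * wordDist T₁ y y' + 2 * M) + M) := by
        gcongr
        refine h2.trans ?_
        gcongr
        exact h3.trans (by gcongr)
      _ ≤ a * (M * a + 2 * M * M + M) * wordDist T₁ y y' + a * (M * a + 2 * M * M + M) := by
        have : a * (M * (a * wordDist T₁ y y' + 2 * M) + M) =
            (a * (M * a)) * wordDist T₁ y y' + a * (2 * M * M + M) := by ring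
        rw [this]
        have e1 : a * (M * a) ≤ a * (M * a + 2 * M * M + M) :=
          Nat.mul_le_mul_left _ (by omega)
        have e2 : a * (2 * M * M + M) ≤ a * (M * a + 2 * M * M + M) :=
          Nat.mul_le_mul_left _ (by omega)
        gcongr
  · have h1 := b1 (g (f x)) x
    have h2 := f2 (g (f x)) x
    have h3 := f3 (f x)
    calc wordDist S₁ (g (f x)) x ≤ a * dS (g (f x)) x := h1
      _ ≤ a * (M * M + M) := by
        gcongr
        exact h2.trans (by gcongr)
      _ ≤ _ := Nat.mul_le_mul_left _ (by nlinarith [Nat.zero_le (M * a), Nat.zero_le (M * M)])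
  · have h1 := b3 (f (g y)) y
    have h3 := f3 y
    calc wordDist T₁ (f (g y)) y ≤ a * dT (f (g y)) y := h1
      _ ≤ a * M := by gcongr
      _ ≤ _ := Nat.mul_le_mul_left _ (by omega)

/-- Iterated lamplighters of different heights over an infinite finitely presented group are not
quasi-isometric. -/
theorem not_quasiIsometric (H : GrpCat.{u}) [Infinite H] [Group.IsFinitelyPresented H] {m n : ℕ}
    (hmn : m ≠ n) : ¬ QuasiIsometric (iterL H m) (iterL H n) := by
  intro h
  obtain ⟨k, φ, hφ, _⟩ := (Group.isFinitelyPresented_iff (G := H)).1 inferInstance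
  set S : Set H := Set.range (fun i => φ (FreeGroup.of i)) with hSdef
  have hS1 : S.Finite := Set.finite_range _
  have hS2 : Subgroup.closure S = ⊤ := by
    have h1 : S = φ '' Set.range (FreeGroup.of : Fin k → FreeGroup (Fin k)) := by
      rw [← Set.range_comp]; rfl
    rw [h1, ← MonoidHom.map_closure, FreeGroup.closure_range_of, ← MonoidHom.range_eq_map]
    exact MonoidHom.range_eq_top.2 hφ
  obtain ⟨f, g, L, h1, h2, h3, h4⟩ := qi_coarse h
    ((genSet H S m).2 hS1 hS2).1 ((genSet H S m).2 hS1 hS2).2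
    ((genSet H S n).2 hS1 hS2).1 ((genSet H S n).2 hS1 hS2).2
  rcases lt_or_gt_of_ne hmn with hlt | hlt
  · exact main_coarse H S hS1 hS2 hlt g f L h2 h1 h4 h3
  · exact main_coarse H S hS1 hS2 hlt f g L h1 h2 h3 h4

end Pool.Agent.TH86.IL
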