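import Pool.Agent.TH86.IL.Cuts

/-!
# Squares of lines in towers
-/

set_option autoImplicit false

namespace Pool.Agent.TH86.IL

universe u

section square

variable {H X : Type u} {D : GM H} {E : GM X} (T : Tower D E)

theorem near_pt {w w' : T.A → ZMod 2} (hw : {a | w a ≠ 0}.Finite) (hw' : {a | w' a ≠ 0}.Finite)
    {x x' : H} {r : ℕ} (h : E.d (T.pt w x) (T.pt w' x') ≤ r) {a : T.A} (ha : w a ≠ w' a) :
    T.near r (T.pt w x) a := by
  apply T.near_mono _ _ _ _ h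
  apply T.near_of_ne
  rw [T.ps_pt _ _ hw, T.ps_pt _ _ hw']
  exact ha

theorem dist_pt {w w' : T.A → ZMod 2} (hw : {a | w a ≠ 0}.Finite) (hw' : {a | w' a ≠ 0}.Finite)
    {x x' : H} {r : ℕ} (h : E.d (T.pt w x) (T.pt w' x') ≤ r) : D.d x x' ≤ r := by
  have := T.d_pr (T.pt w x) (T.pt w' x')
  rw [T.pr_pt _ _ hw, T.pr_pt _ _ hw'] at this
  omega

theorem loc_pt {w : T.A → ZMod 2} (hw : {a | w a ≠ 0}.Finite) {x : H} {r : ℕ} {a : T.A}
    (h : T.near r (T.pt w x) a) : D.d x (T.loc a) ≤ r := by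
  have := T.near_loc _ _ _ h
  rwa [T.pr_pt _ _ hw] at this

/-- The first half of the square lemma. -/
theorem claimA {r : ℕ} {w00 w10 w01 w11 : T.A → ZMod 2}
    (f00 : {a | w00 a ≠ 0}.Finite) (f10 : {a | w10 a ≠ 0}.Finite)
    (f01 : {a | w01 a ≠ 0}.Finite) (f11 : {a | w11 a ≠ 0}.Finite)
    {h00 h10 h01 h11 : ℤ → H} {tp tq : ℤ}
    (c1 : E.d (T.pt w00 (h00 tp)) (T.pt w10 (h10 tp)) ≤ r)
    (c2 : E.d (T.pt w00 (h00 tq)) (T.pt w01 (h01 tq)) ≤ r)
    (c3 : E.d (T.pt w10 (h10 tq)) (T.pt w11 (h11 tq)) ≤ r)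
    (c4 : E.d (T.pt w01 (h01 tp)) (T.pt w11 (h11 tp)) ≤ r)
    (far00 : 3 * r < D.d (h00 tp) (h00 tq)) (far10 : 3 * r < D.d (h10 tp) (h10 tq))
    {a : T.A} (ha : w10 a ≠ w00 a) :
    (∀ b, T.lev b < T.lev a → w01 b = w00 b) ∧ D.d (h00 tp) (h01 tp) ≤ 2 * r := by
  have n00 : T.near r (T.pt w00 (h00 tp)) a := near_pt T f00 f10 c1 (Ne.symm ha)
  have c1' : E.d (T.pt w10 (h10 tp)) (T.pt w00 (h00 tp)) ≤ r := by rw [E.d_symm]; exact c1
  have n10 : T.near r (T.pt w10 (h10 tp)) a := near_pt T f10 f00 c1' ha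
  have l00 := loc_pt T f00 n00
  have l10 := loc_pt T f10 n10
  -- `w01 a = w00 a`
  have e01 : w01 a = w00 a := by
    by_contra hne
    have n := near_pt T f00 f01 c2 (Ne.symm hne)
    have l := loc_pt T f00 n
    have t := D.d_tri (h00 tp) (T.loc a) (h00 tq)
    rw [D.d_symm (T.loc a)] at t
    omega
  have e11 : w11 a = w10 a := by
    by_contra hne
    have n := near_pt T f10 f11 c3 (Ne.symm hne)
    have l := loc_pt T f10 n
    have t := D.d_tri (h10 tp) (T.loc a) (h10 tq)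
    rw [D.d_symm (T.loc a)] at t
    omega
  have n01 : T.near r (T.pt w01 (h01 tp)) a := by
    apply near_pt T f01 f11 c4
    rw [e01, e11]
    exact Ne.symm ha
  have l01 := loc_pt T f01 n01
  refine ⟨fun b hb => ?_, ?_⟩
  · by_contra hne
    have n1 : T.near (r + r) (T.pt w00 (h00 tp)) b := by
      apply T.near_lev r r _ (T.pt w01 (h01 tp)) a b n00 n01 hb
      rw [T.ps_pt _ _ f00, T.ps_pt _ _ f01]
      exact Ne.symm hne
    have n2 := near_pt T f00 f01 c2 (Ne.symm hne)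
    have l1 := loc_pt T f00 n1
    have l2 := loc_pt T f00 n2
    have t := D.d_tri (h00 tp) (T.loc b) (h00 tq)
    rw [D.d_symm (T.loc b)] at t
    omega
  · have t := D.d_tri (h00 tp) (T.loc a) (h01 tp)
    rw [D.d_symm (T.loc a)] at t
    omega

/-- Base case: squares of lines in the base graph. -/
theorem claimC {r s σ : ℕ} {h00 h10 h01 h11 : ℤ → H} {tp tq : ℤ}
    (p00 : Par D σ s h00 h00) (p10 : Par D σ s h10 h10) (p01 : Par D σ s h01 h01)
    (p11 : Par D σ s h11 h11)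
    (c1 : D.d (h00 tp) (h10 tp) ≤ r) (c2 : D.d (h00 tq) (h01 tq) ≤ r)
    (c3 : D.d (h10 tq) (h11 tq) ≤ r) (c4 : D.d (h01 tp) (h11 tp) ≤ r)
    (far00 : 2 * (σ + s + 2 * (σ + r + s)) + 4 * (σ + r + s) < D.d (h00 tp) (h00 tq))
    (far10 : 2 * (σ + s + 2 * (σ + r + s)) + 4 * (σ + r + s) < D.d (h10 tp) (h10 tq))
    (hn : ¬ Par D σ s h00 h10) : Par D σ s h00 h01 := by
  unfold Par at hn
  push Not at hn
  obtain ⟨o, χ, hχ, t, t', ht, ht', hne⟩ := hn
  have d1 : D.d o (h00 tp) ≤ σ + r + s := by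
    by_contra hc
    apply hne
    have e1 : χ (h00 tp) = χ (h10 tp) := const_far' D hχ c1 (by omega)
    have t1 := D.d_tri o (h10 tp) (h00 tp)
    rw [D.d_symm (h10 tp)] at t1
    rw [p00 o χ hχ t tp ht (by omega), p10 o χ hχ t' tp ht' (by omega), e1]
  have t2 := D.d_tri (h00 tp) o (h00 tq)
  rw [D.d_symm (h00 tp) o] at t2
  have t3 := D.d_tri o (h00 tp) (h10 tp)
  have t4 := D.d_tri (h10 tp) o (h10 tq)
  rw [D.d_symm (h10 tp) o] at t4
  -- values at time `tq`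
  have v00 : χ (h00 tq) = χ (h00 t) := p00 o χ hχ tq t (by omega) ht
  have v10 : χ (h10 tq) = χ (h10 t') := p10 o χ hχ tq t' (by omega) ht'
  have v01 : χ (h01 tq) = χ (h00 tq) := (const_far' D hχ c2 (by omega)).symm
  have v11 : χ (h11 tq) = χ (h10 tq) := (const_far' D hχ c3 (by omega)).symm
  have t5 := D.d_tri o (h01 tq) (h00 tq)
  rw [D.d_symm (h01 tq)] at t5
  have t6 := D.d_tri o (h11 tq) (h10 tq)
  rw [D.d_symm (h11 tq)] at t6
  have d2 : D.d o (h01 tp) ≤ σ + r + s := by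
    by_contra hc
    apply hne
    have e1 : χ (h01 tp) = χ (h11 tp) := const_far' D hχ c4 (by omega)
    have t7 := D.d_tri o (h11 tp) (h01 tp)
    rw [D.d_symm (h11 tp)] at t7
    have e2 : χ (h01 tp) = χ (h01 tq) := p01 o χ hχ tp tq (by omega) (by omega)
    have e3 : χ (h11 tp) = χ (h11 tq) := p11 o χ hχ tp tq (by omega) (by omega)
    rw [← v00, ← v10, ← v01, ← v11, ← e2, ← e3, e1]
  have t8 := D.d_tri (h00 tp) o (h01 tp)
  rw [D.d_symm (h00 tp) o] at t8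
  exact par_of_near D p00 p01 (r := 2 * (σ + r + s)) (tp := tp) (tq := tq) (by omega) (by omega)
    (by omega)

/-- The square lemma. -/
theorem square {r s σ B : ℕ} (hB : 100 * (r + s + σ + 1) ≤ B) {w00 w10 w01 w11 : T.A → ZMod 2}
    (f00 : {a | w00 a ≠ 0}.Finite) (f10 : {a | w10 a ≠ 0}.Finite)
    (f01 : {a | w01 a ≠ 0}.Finite) (f11 : {a | w11 a ≠ 0}.Finite)
    {h00 h10 h01 h11 : ℤ → H} {tp tq : ℤ}
    (p00 : Par D σ s h00 h00) (p10 : Par D σ s h10 h10) (p01 : Par D σ s h01 h01)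
    (p11 : Par D σ s h11 h11)
    (c1 : E.d (T.pt w00 (h00 tp)) (T.pt w10 (h10 tp)) ≤ r)
    (c2 : E.d (T.pt w00 (h00 tq)) (T.pt w01 (h01 tq)) ≤ r)
    (c3 : E.d (T.pt w10 (h10 tq)) (T.pt w11 (h11 tq)) ≤ r)
    (c4 : E.d (T.pt w01 (h01 tp)) (T.pt w11 (h11 tp)) ≤ r)
    (far00 : B < D.d (h00 tp) (h00 tq)) (far10 : B < D.d (h10 tp) (h10 tq))
    (far01 : B < D.d (h01 tp) (h01 tq)) :
    (w10 = w00 ∧ Par D σ s h00 h10) ∨ (w01 = w00 ∧ Par D σ s h00 h01) ∨
    (∃ j, (∀ a, w10 a ≠ w00 a → T.lev a = j) ∧ (∀ a, w01 a ≠ w00 a → T.lev a = j) ∧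
      w10 ≠ w00 ∧ w01 ≠ w00 ∧ Par D σ s h00 h10 ∧ Par D σ s h00 h01) := by
  have A : ∀ a, w10 a ≠ w00 a →
      (∀ b, T.lev b < T.lev a → w01 b = w00 b) ∧ D.d (h00 tp) (h01 tp) ≤ 2 * r := fun a ha =>
    claimA T f00 f10 f01 f11 c1 c2 c3 c4 (by omega) (by omega) ha
  have far00' : B < D.d (h00 tq) (h00 tp) := by rw [D.d_symm]; exact far00
  have far01' : B < D.d (h01 tq) (h01 tp) := by rw [D.d_symm]; exact far01
  have A' : ∀ a, w01 a ≠ w00 a →
      (∀ b, T.lev b < T.lev a → w10 b = w00 b) ∧ D.d (h00 tq) (h10 tq) ≤ 2 * r := fun a ha =>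
    claimA T f00 f01 f10 f11 c2 c1 c4 c3 (by omega) (by omega) ha
  have P : ∀ a, w10 a ≠ w00 a → Par D σ s h00 h01 := by
    intro a ha
    have h2 := dist_pt T f00 f01 c2
    exact par_of_near D p00 p01 (r := 2 * r) (tp := tp) (tq := tq) (A a ha).2 (by omega) (by omega)
  have P' : ∀ a, w01 a ≠ w00 a → Par D σ s h00 h10 := by
    intro a ha
    have h2 := dist_pt T f00 f10 c1
    exact par_of_near D p00 p10 (r := 2 * r) (tp := tp) (tq := tq) (by omega) (A' a ha).2 (by omega)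
  by_cases e10 : w10 = w00
  · by_cases e01 : w01 = w00
    · by_cases hp : Par D σ s h00 h10
      · exact Or.inl ⟨e10, hp⟩
      · right; left
        refine ⟨e01, ?_⟩
        exact claimC p00 p10 p01 p11 (dist_pt T f00 f10 c1) (dist_pt T f00 f01 c2)
          (dist_pt T f10 f11 c3) (dist_pt T f01 f11 c4) (by omega) (by omega) hp
    · obtain ⟨a, ha⟩ := Function.ne_iff.1 e01
      exact Or.inl ⟨e10, P' a ha⟩
  · obtain ⟨a, ha⟩ := Function.ne_iff.1 e10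
    by_cases e01 : w01 = w00
    · exact Or.inr (Or.inl ⟨e01, P a ha⟩)
    · obtain ⟨b, hb⟩ := Function.ne_iff.1 e01
      right; right
      have key : ∀ a b, w10 a ≠ w00 a → w01 b ≠ w00 b → T.lev a = T.lev b := by
        intro a b ha hb
        have h1 : ¬ T.lev b < T.lev a := fun h => hb ((A a ha).1 b h)
        have h2 : ¬ T.lev a < T.lev b := fun h => ha ((A' b hb).1 a h)
        omega
      refine ⟨T.lev b, fun a' ha' => key a' b ha' hb, fun b' hb' => ?_, e10, e01, P' b hb, P a ha⟩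
      rw [← key a b' ha hb', key a b ha hb]

end square

end Pool.Agent.TH86.IL
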