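import Mathlib

/-!
# Definitions used in the statement of the main theorem

Restricted wreath products, lamplighter groups, iterated lamplighter groups, word metrics and
quasi-isometries of finitely generated groups.
-/

set_option autoImplicit false

open scoped Pointwise

namespace Pool.Agent.TH86.IL

universe u v

/-- The restricted (standard, regular) wreath product `F ≀ K`: the subgroup of Mathlib's
(unrestricted) regular wreath product `(K → F) ⋊ K` consisting of the elements whose
function `K → F` has finite support. -/
def RWreath (F : Type u) (K : Type v) [Group F] [Group K] :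
    Subgroup (RegularWreathProduct F K) where
  carrier := {g | (Function.mulSupport g.left).Finite}
  mul_mem' := by
    intro a b ha hb
    have h1 : (Function.mulSupport fun x => b.left (a.right⁻¹ * x)).Finite := by
      have : (Function.mulSupport fun x => b.left (a.right⁻¹ * x)) ⊆
          (fun x => a.right * x) '' (Function.mulSupport b.left) := by
        intro x hx
        exact ⟨a.right⁻¹ * x, hx, by simp⟩
      exact (Set.Finite.image _ hb).subset this
    have h2 : (Function.mulSupport (a * b).left) ⊆
        Function.mulSupport a.left ∪ (Function.mulSupport fun x => b.left (a.right⁻¹ * x)) := by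
      rw [RegularWreathProduct.mul_left]
      exact Function.mulSupport_mul _ _
    exact (Set.Finite.union ha h1).subset h2
  one_mem' := by
    simp
  inv_mem' := by
    intro a ha
    have : (Function.mulSupport (a⁻¹).left) ⊆
        (fun x => a.right⁻¹ * x) '' (Function.mulSupport a.left) := by
      intro x hx
      refine ⟨a.right * x, ?_, by simp⟩
      simpa using hx
    exact (Set.Finite.image _ ha).subset this

/-- The lamplighter group `ℤ/2 ≀ K`. -/
abbrev Lamplighter (K : Type u) [Group K] : Type u :=
  ↥(RWreath (Multiplicative (ZMod 2)) K)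

/-- The `n`-fold iterated lamplighter group over `H`: `iterL H 0 = H` and
`iterL H (n + 1) = ℤ/2 ≀ iterL H n`. -/
def iterL (H : GrpCat.{u}) : ℕ → GrpCat.{u}
  | 0 => H
  | n + 1 => GrpCat.of (Lamplighter (iterL H n))

/-- The word distance of the set `S`: the least `n` such that `x⁻¹ y` is a product of `n`
elements of `S ∪ S⁻¹ ∪ {1}`, that is, a product of at most `n` elements of `S ∪ S⁻¹`. -/
noncomputable def wordDist {G : Type u} [Group G] (S : Set G) (x y : G) : ℕ :=
  sInf {n : ℕ | x⁻¹ * y ∈ (insert 1 (S ∪ S⁻¹) : Set G) ^ n}

/-- Two groups are quasi-isometric if for some finite generating sets there is a quasi-isometry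
between them for the corresponding word metrics. -/
def QuasiIsometric (G₁ : Type u) (G₂ : Type v) [Group G₁] [Group G₂] : Prop :=
  ∃ (S : Set G₁) (T : Set G₂), S.Finite ∧ Subgroup.closure S = ⊤ ∧
    T.Finite ∧ Subgroup.closure T = ⊤ ∧
    ∃ (f : G₁ → G₂) (L C : ℝ), 1 ≤ L ∧ 0 ≤ C ∧
      (∀ x y, L⁻¹ * (wordDist S x y : ℝ) - C ≤ (wordDist T (f x) (f y) : ℝ) ∧
        (wordDist T (f x) (f y) : ℝ) ≤ L * (wordDist S x y : ℝ) + C) ∧
      ∀ z, ∃ x, (wordDist T (f x) z : ℝ) ≤ C

end Pool.Agent.TH86.IL
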