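import Pool.Agent.TH86.IL.Defs

/-!
# Towers of lamplighters over a base graph
-/

set_option autoImplicit false

namespace Pool.Agent.TH86.IL

universe u v w

namespace LampOver

variable {K : Type u} {X : Type v} {E : GM K} {E' : GM X} (L : LampOver E E')

include L in
theorem pt_eta (g : X) : L.pt (L.lam g) (L.pos g) = g :=
  L.ext _ _ (L.pos_pt _ _ (L.fin g)) (L.lam_pt _ _ (L.fin g))

theorem pos_dist_aux (n : ℕ) : ∀ g g', E'.d g g' = n → E.d (L.pos g) (L.pos g') ≤ n ∧
    ∀ k, L.lam g k ≠ L.lam g' k → E.d (L.pos g) k ≤ n := by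
  induction n with
  | zero =>
    intro g g' h
    have := E'.d_eq _ _ h
    subst this
    exact ⟨by rw [E.d_self], fun k hk => absurd rfl hk⟩
  | succ n ih =>
    intro g g' h
    obtain ⟨z, hz1, hz2⟩ := E'.d_geo g g' n h
    obtain ⟨i1, i2⟩ := ih g z hz1
    rcases (L.adj z g').1 hz2.le with ⟨h1, h2⟩ | ⟨h1, h2, h3⟩
    · refine ⟨?_, fun k hk => ?_⟩
      · have := E.d_tri (L.pos g) (L.pos z) (L.pos g')
        omega
      · rw [← h1] at hk
        have := i2 k hk
        omega
    · refine ⟨by rw [← h1]; omega, fun k hk => ?_⟩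
      by_cases hkz : k = L.pos z
      · subst hkz; omega
      · rw [h2 k hkz] at hk
        have := i2 k hk
        omega

theorem pos_dist (g g' : X) : E.d (L.pos g) (L.pos g') ≤ E'.d g g' :=
  (L.pos_dist_aux _ g g' rfl).1

theorem near_of_ne {g g' : X} {k : K} (h : L.lam g k ≠ L.lam g' k) :
    E.d (L.pos g) k ≤ E'.d g g' :=
  (L.pos_dist_aux _ g g' rfl).2 k h

theorem d_pt_le {φ : K → ZMod 2} (hφ : {k | φ k ≠ 0}.Finite) (n : ℕ) :
    ∀ x y, E.d x y = n → E'.d (L.pt φ x) (L.pt φ y) ≤ n := by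
  induction n with
  | zero =>
    intro x y h
    rw [E.d_eq _ _ h, E'.d_self]
  | succ n ih =>
    intro x y h
    obtain ⟨z, hz1, hz2⟩ := E.d_geo x y n h
    have h1 := ih x z hz1
    have h2 : E'.d (L.pt φ z) (L.pt φ y) ≤ 1 := by
      rw [L.adj]
      left
      rw [L.lam_pt _ _ hφ, L.lam_pt _ _ hφ, L.pos_pt _ _ hφ, L.pos_pt _ _ hφ]
      exact ⟨rfl, hz2.le⟩
    have := E'.d_tri (L.pt φ x) (L.pt φ z) (L.pt φ y)
    omega

theorem d_pt_le' {φ : K → ZMod 2} (hφ : {k | φ k ≠ 0}.Finite) (x y : K) :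
    E'.d (L.pt φ x) (L.pt φ y) ≤ E.d x y := L.d_pt_le hφ _ x y rfl

theorem zmod2_ne {a b : ZMod 2} (h : a ≠ b) : b = a + 1 := by
  revert a b; decide

theorem proper_aux (R : ℕ) (n : ℕ) : ∀ (g : X) (φ : K → ZMod 2),
    {k | φ k ≠ L.lam g k}.Finite → {k | φ k ≠ L.lam g k}.ncard = n →
    (∀ k, φ k ≠ L.lam g k → E.d (L.pos g) k ≤ R) →
    E'.d g (L.pt φ (L.pos g)) ≤ n * (2 * R + 1) := by
  classical
  induction n with
  | zero =>
    intro g φ hfin hcard hR
    have : φ = L.lam g := by
      funext k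
      by_contra hk
      have h0 : {k | φ k ≠ L.lam g k} = ∅ := (Set.ncard_eq_zero hfin).1 hcard
      have : k ∈ {k | φ k ≠ L.lam g k} := hk
      rw [h0] at this
      exact this
    rw [this, L.pt_eta, E'.d_self]
    omega
  | succ n ih =>
    intro g φ hfin hcard hR
    have hne : {k | φ k ≠ L.lam g k}.Nonempty := by
      rw [← Set.ncard_pos hfin]; omega
    obtain ⟨k, hk⟩ := hne
    have hk' : φ k ≠ L.lam g k := hk
    have hφfin : {k | φ k ≠ 0}.Finite := by
      apply (hfin.union (L.fin g)).subset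
      intro z hz
      by_cases h : φ z = L.lam g z
      · right
        show L.lam g z ≠ 0
        rw [← h]; exact hz
      · left; exact h
    set φ' := Function.update φ k (L.lam g k) with hφ'
    have hset : {z | φ' z ≠ L.lam g z} = {z | φ z ≠ L.lam g z} \ {k} := by
      ext z
      simp only [Set.mem_ofPred_eq, Set.mem_sdiff, Set.mem_singleton_iff]
      by_cases hz : z = k
      · subst hz; simp [hφ']
      · rw [hφ', Function.update_of_ne hz]
        constructor
        · intro h; exact ⟨h, hz⟩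
        · intro h; exact h.1
    have hfin' : {z | φ' z ≠ L.lam g z}.Finite := by rw [hset]; exact hfin.subset Set.sdiff_subset
    have hcard' : {z | φ' z ≠ L.lam g z}.ncard = n := by
      rw [hset, Set.ncard_sdiff_singleton_of_mem hk]
      omega
    have hφ'fin : {k | φ' k ≠ 0}.Finite := by
      apply (hfin'.union (L.fin g)).subset
      intro z hz
      by_cases h : φ' z = L.lam g z
      · right
        show L.lam g z ≠ 0
        rw [← h]; exact hz
      · left; exact h
    have h1 := ih g φ' hfin' hcard' (by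
      intro z hz
      have : z ∈ {z | φ' z ≠ L.lam g z} := hz
      rw [hset] at this
      exact hR z this.1)
    have hkR := hR k hk'
    have h2 := L.d_pt_le' hφ'fin (L.pos g) k
    have h3 := L.d_pt_le' hφfin k (L.pos g)
    rw [E.d_symm k] at h3
    have h4 : E'.d (L.pt φ' k) (L.pt φ k) ≤ 1 := by
      rw [L.adj]
      right
      rw [L.lam_pt _ _ hφfin, L.lam_pt _ _ hφ'fin, L.pos_pt _ _ hφfin, L.pos_pt _ _ hφ'fin]
      refine ⟨rfl, fun z hz => ?_, ?_⟩
      · rw [hφ', Function.update_of_ne hz]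
      · rw [hφ', Function.update_self]
        exact zmod2_ne (Ne.symm hk')
    have t1 := E'.d_tri g (L.pt φ' (L.pos g)) (L.pt φ' k)
    have t2 := E'.d_tri g (L.pt φ' k) (L.pt φ k)
    have t3 := E'.d_tri g (L.pt φ k) (L.pt φ (L.pos g))
    have : (n + 1) * (2 * R + 1) = n * (2 * R + 1) + (2 * R + 1) := by ring
    omega

theorem proper (R r : ℕ) (g g' : X) (h1 : E.d (L.pos g) (L.pos g') ≤ r)
    (h2 : ∀ k, L.lam g k ≠ L.lam g' k → E.d (L.pos g) k ≤ R) :
    E'.d g g' ≤ E.V R * (2 * R + 1) + r := by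
  have hsub : {k | L.lam g' k ≠ L.lam g k} ⊆ {k | E.d (L.pos g) k ≤ R} := by
    intro k hk
    exact h2 k (Ne.symm hk)
  have hfin : {k | L.lam g' k ≠ L.lam g k}.Finite := (E.ball_fin _ _).subset hsub
  have hcard : {k | L.lam g' k ≠ L.lam g k}.ncard ≤ E.V R := by
    rw [← E.ball_card (L.pos g) R]
    exact Set.ncard_le_ncard hsub (E.ball_fin _ _)
  have h3 := L.proper_aux R _ g (L.lam g') hfin rfl (fun k hk => h2 k (Ne.symm hk))
  have h4 := L.d_pt_le' (L.fin g') (L.pos g) (L.pos g')
  rw [L.pt_eta] at h4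
  have h5 := E'.d_tri g (L.pt (L.lam g') (L.pos g)) g'
  have h6 := Nat.mul_le_mul_right (2 * R + 1) hcard
  omega

end LampOver

/-- The structure shared by the iterated lamplighters over `D`: a point of `X` has a position
`pr g` in `H` and lamps `a : A` at locations `loc a` with states `ps g a`. -/
structure Tower {H X : Type u} (D : GM H) (E : GM X) where
  A : Type u
  n : ℕ
  lev : A → ℕ
  lev_lt : ∀ a, lev a < n
  loc : A → H
  ps : X → A → ZMod 2
  pr : X → H
  near : ℕ → X → A → Prop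
  pt : (A → ZMod 2) → H → X
  ps_fin : ∀ g, {a | ps g a ≠ 0}.Finite
  near_fin : ∀ R g, {a | near R g a}.Finite
  ps_pt : ∀ w x, {a | w a ≠ 0}.Finite → ps (pt w x) = w
  pr_pt : ∀ w x, {a | w a ≠ 0}.Finite → pr (pt w x) = x
  ext : ∀ g g', pr g = pr g' → ps g = ps g' → g = g'
  d_pt : ∀ w x y, {a | w a ≠ 0}.Finite → E.d (pt w x) (pt w y) ≤ D.d x y
  d_pr : ∀ g g', D.d (pr g) (pr g') ≤ E.d g g'
  near_of_ne : ∀ g g' a, ps g a ≠ ps g' a → near (E.d g g') g a
  near_mono : ∀ R R' g a, R ≤ R' → near R g a → near R' g a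
  near_tri : ∀ R g g' a, near R g a → near (R + E.d g g') g' a
  near_loc : ∀ R g a, near R g a → D.d (pr g) (loc a) ≤ R
  near_lev : ∀ R R' g g' a b, near R g a → near R' g' a → lev b < lev a →
    ps g b ≠ ps g' b → near (R + R') g b
  near_congr : ∀ R g g' a, (∀ b, lev b < lev a → ps g b = ps g' b) → pr g = pr g' →
    near R g a → near R g' a
  proper : ∀ R r, ∃ Θ, ∀ g g', D.d (pr g) (pr g') ≤ r →
    (∀ a, ps g a ≠ ps g' a → near R g a ∨ near R g' a) → E.d g g' ≤ Θ
  chain : ∀ s m, ∃ S, ∀ o g g',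
    Relation.ReflTransGen (fun x y => E.d x y ≤ m ∧ D.d o (pr x) ≤ s ∧ D.d o (pr y) ≤ s) g g' →
    E.d g g' ≤ S
  lamps : ∀ i, i < n → ∀ x, ∃ a, lev a = i ∧ loc a = x ∧ near 0 (pt 0 x) a

namespace Tower

/-- The trivial tower. -/
def base {H : Type u} (D : GM H) : Tower D D where
  A := PEmpty
  n := 0
  lev a := a.elim
  lev_lt a := a.elim
  loc a := a.elim
  ps _ a := a.elim
  pr g := g
  near _ _ a := a.elim
  pt _ x := x
  ps_fin g := Set.toFinite _
  near_fin R g := Set.toFinite _
  ps_pt w x _ := by funext a; exact a.elim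
  pr_pt _ _ _ := rfl
  ext _ _ h _ := h
  d_pt _ _ _ _ := le_rfl
  d_pr _ _ := le_rfl
  near_of_ne _ _ a := a.elim
  near_mono _ _ _ a := a.elim
  near_tri _ _ _ a := a.elim
  near_loc _ _ a := a.elim
  near_lev _ _ _ _ a := a.elim
  near_congr _ _ _ a := a.elim
  proper R r := ⟨r, fun g g' h _ => h⟩
  chain s m := ⟨2 * s, fun o g g' h => by
    rcases Relation.ReflTransGen.cases_head h with h | ⟨z, hz, _⟩
    · subst h; rw [D.d_self]; omega
    · rcases Relation.ReflTransGen.cases_tail h with h' | ⟨z', _, hz'⟩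
      · subst h'; rw [D.d_self]; omega
      · have h1 := hz.2.1
        have h2 := hz'.2.2
        have h3 := D.d_tri g o g'
        rw [D.d_symm g o] at h3
        omega⟩
  lamps i hi := absurd hi (by omega)

section lampstep

variable {H K X : Type u} {D : GM H} {E : GM K} {E' : GM X}

theorem lamp_fin_inl {A : Type u} {w : A ⊕ K → ZMod 2} (hw : {a | w a ≠ 0}.Finite) :
    {a | w (Sum.inl a) ≠ 0}.Finite :=
  Set.Finite.preimage (Sum.inl_injective.injOn) hw

theorem lamp_fin_inr {A : Type u} {w : A ⊕ K → ZMod 2} (hw : {a | w a ≠ 0}.Finite) :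
    {a | w (Sum.inr a) ≠ 0}.Finite :=
  Set.Finite.preimage (Sum.inr_injective.injOn) hw

theorem chain_lift (T : Tower D E) (L : LampOver E E') {s m : ℕ} {o : H} {g g' : X}
    (h : Relation.ReflTransGen (fun x y => E'.d x y ≤ m ∧ D.d o (T.pr (L.pos x)) ≤ s ∧
      D.d o (T.pr (L.pos y)) ≤ s) g g') :
    Relation.ReflTransGen (fun x y => E.d x y ≤ m ∧ D.d o (T.pr x) ≤ s ∧
      D.d o (T.pr y) ≤ s) (L.pos g) (L.pos g') := by
  induction h with
  | refl => exact .refl
  | tail _ hbc ih => exact ih.tail ⟨(L.pos_dist _ _).trans hbc.1, hbc.2.1, hbc.2.2⟩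

/-- One more lamplighter on top of a tower. -/
def lamp (T : Tower D E) (L : LampOver E E') : Tower D E' where
  A := T.A ⊕ K
  n := T.n + 1
  lev a := Sum.elim T.lev (fun _ => T.n) a
  lev_lt a := by
    rcases a with a | k
    · have := T.lev_lt a
      simp only [Sum.elim_inl]
      omega
    · simp only [Sum.elim_inr]
      omega
  loc a := Sum.elim T.loc T.pr a
  ps g a := Sum.elim (T.ps (L.pos g)) (L.lam g) a
  pr g := T.pr (L.pos g)
  near R g a := Sum.elim (T.near R (L.pos g)) (fun k => E.d (L.pos g) k ≤ R) a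
  pt w x := L.pt (fun k => w (Sum.inr k)) (T.pt (fun a => w (Sum.inl a)) x)
  ps_fin g := by
    have h1 := (T.ps_fin (L.pos g)).image (Sum.inl : T.A → T.A ⊕ K)
    have h2 := (L.fin g).image (Sum.inr : K → T.A ⊕ K)
    apply (h1.union h2).subset
    rintro (a | k) h
    · left; exact ⟨a, h, rfl⟩
    · right; exact ⟨k, h, rfl⟩
  near_fin R g := by
    have h1 := (T.near_fin R (L.pos g)).image (Sum.inl : T.A → T.A ⊕ K)
    have h2 := (E.ball_fin (L.pos g) R).image (Sum.inr : K → T.A ⊕ K)
    apply (h1.union h2).subset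
    rintro (a | k) h
    · left; exact ⟨a, h, rfl⟩
    · right; exact ⟨k, h, rfl⟩
  ps_pt w x hw := by
    funext a
    rcases a with a | k
    · show T.ps (L.pos _) a = _
      rw [L.pos_pt _ _ (lamp_fin_inr hw), T.ps_pt _ _ (lamp_fin_inl hw)]
    · show L.lam _ k = _
      rw [L.lam_pt _ _ (lamp_fin_inr hw)]
  pr_pt w x hw := by
    rw [L.pos_pt _ _ (lamp_fin_inr hw), T.pr_pt _ _ (lamp_fin_inl hw)]
  ext g g' h1 h2 := by
    apply L.ext
    · apply T.ext _ _ h1
      funext a
      exact congrFun h2 (Sum.inl a)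
    · funext k
      exact congrFun h2 (Sum.inr k)
  d_pt w x y hw :=
    (L.d_pt_le' (lamp_fin_inr hw) _ _).trans (T.d_pt _ _ _ (lamp_fin_inl hw))
  d_pr g g' := (T.d_pr _ _).trans (L.pos_dist _ _)
  near_of_ne g g' a h := by
    rcases a with a | k
    · exact T.near_mono _ _ _ _ (L.pos_dist g g') (T.near_of_ne _ _ _ h)
    · exact L.near_of_ne h
  near_mono R R' g a hR h := by
    rcases a with a | k
    · exact T.near_mono _ _ _ _ hR h
    · exact le_trans (show E.d (L.pos g) k ≤ R from h) hR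
  near_tri R g g' a h := by
    rcases a with a | k
    · exact T.near_mono _ _ _ _ (by have := L.pos_dist g g'; omega)
        (T.near_tri _ _ (L.pos g') _ h)
    · have h1 : E.d (L.pos g) k ≤ R := h
      have h2 := L.pos_dist g g'
      have h3 := E.d_tri (L.pos g') (L.pos g) k
      rw [E.d_symm (L.pos g') (L.pos g)] at h3
      show E.d (L.pos g') k ≤ R + E'.d g g'
      omega
  near_loc R g a h := by
    rcases a with a | k
    · exact T.near_loc _ _ _ h
    · exact (T.d_pr _ _).trans h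
  near_lev R R' g g' a b h1 h2 h3 h4 := by
    rcases a with a | k
    · rcases b with b | l
      · exact T.near_lev _ _ _ _ _ _ h1 h2 h3 h4
      · exfalso
        have h5 := T.lev_lt a
        simp only [Sum.elim_inl, Sum.elim_inr] at h3
        omega
    · rcases b with b | l
      · have h5 := T.near_of_ne _ _ _ h4
        have h6 : E.d (L.pos g) k ≤ R := h1
        have h7 : E.d (L.pos g') k ≤ R' := h2
        have h8 := E.d_tri (L.pos g) k (L.pos g')
        rw [E.d_symm k] at h8
        exact T.near_mono _ _ _ _ (by omega) h5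
      · exfalso
        simp only [Sum.elim_inr] at h3
        omega
  near_congr R g g' a h1 h2 h3 := by
    rcases a with a | k
    · refine T.near_congr _ _ _ _ (fun b hb => ?_) h2 h3
      exact h1 (Sum.inl b) hb
    · have : L.pos g = L.pos g' := by
        apply T.ext _ _ h2
        funext b
        exact h1 (Sum.inl b) (T.lev_lt b)
      show E.d (L.pos g') k ≤ R
      rw [← this]
      exact h3
  proper R r := by
    obtain ⟨Θ, hΘ⟩ := T.proper R r
    refine ⟨E.V (R + Θ) * (2 * (R + Θ) + 1) + Θ, fun g g' h1 h2 => ?_⟩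
    have h3 := hΘ (L.pos g) (L.pos g') h1 (fun a ha => h2 (Sum.inl a) ha)
    apply L.proper (R + Θ) Θ g g' h3
    intro k hk
    rcases h2 (Sum.inr k) hk with h4 | h4
    · have h5 : E.d (L.pos g) k ≤ R := h4
      omega
    · have h5 : E.d (L.pos g') k ≤ R := h4
      have h6 := E.d_tri (L.pos g) (L.pos g') k
      omega
  chain s m := by
    obtain ⟨S, hS⟩ := T.chain s m
    refine ⟨E.V (S + m) * (2 * (S + m) + 1) + S, fun o g g' h => ?_⟩
    apply L.proper (S + m) S g g' (hS o _ _ (chain_lift T L h))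
    intro k hk
    induction h with
    | refl => exact absurd rfl hk
    | @tail b c hb hc ih =>
      by_cases hbc : L.lam g k = L.lam b k
      · have h1 : L.lam b k ≠ L.lam c k := by rw [← hbc]; exact hk
        have h2 := L.near_of_ne h1
        have h3 := hS o _ _ (chain_lift T L hb)
        have h4 := E.d_tri (L.pos g) (L.pos b) k
        have h5 := hc.1
        omega
      · exact ih hbc
  lamps i hi x := by
    have h0 : L.pos (L.pt (0 : K → ZMod 2) (T.pt 0 x)) = T.pt 0 x :=
      L.pos_pt _ _ (by simp)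
    by_cases h : i < T.n
    · obtain ⟨a, ha1, ha2, ha3⟩ := T.lamps i h x
      refine ⟨Sum.inl a, ha1, ha2, ?_⟩
      show T.near 0 (L.pos (L.pt (0 : K → ZMod 2) (T.pt 0 x))) a
      rw [h0]; exact ha3
    · refine ⟨Sum.inr (T.pt 0 x), ?_, T.pr_pt _ _ (by simp), ?_⟩
      · simp only [Sum.elim_inr]; omega
      · show E.d (L.pos (L.pt (0 : K → ZMod 2) (T.pt 0 x))) (T.pt 0 x) ≤ 0
        rw [h0, E.d_self]

end lampstep

end Tower

end Pool.Agent.TH86.IL
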