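import Pool.Agent.TH86.IL.Defs
import Pool.Agent.TH86.IL.Stmt

/-!
# Word metrics as graph metrics
-/

set_option autoImplicit false

open scoped Pointwise

namespace Pool.Agent.TH86.IL

universe u v w

section

variable {G : Type u} [Group G]

/-- The symmetrised set `S ∪ S⁻¹ ∪ {1}`. -/
def sy (S : Set G) : Set G := insert 1 (S ∪ S⁻¹)

theorem one_mem_sy (S : Set G) : (1 : G) ∈ sy S := Set.mem_insert _ _

theorem inv_mem_sy {S : Set G} {g : G} (h : g ∈ sy S) : g⁻¹ ∈ sy S := by
  rcases h with h | h | h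
  · rw [h, inv_one]; exact one_mem_sy S
  · right; right; simpa using h
  · right; left; simpa using h

theorem sy_pow_mono (S : Set G) {m n : ℕ} (h : m ≤ n) : sy S ^ m ⊆ sy S ^ n :=
  Set.pow_subset_pow_right (one_mem_sy S) h

theorem inv_mem_sy_pow {S : Set G} {n : ℕ} {g : G} (h : g ∈ sy S ^ n) : g⁻¹ ∈ sy S ^ n := by
  induction n generalizing g with
  | zero => simp only [pow_zero, Set.mem_one] at h ⊢; simp [h]
  | succ n ih =>
    rw [pow_succ] at h
    obtain ⟨a, ha, b, hb, rfl⟩ := h
    rw [pow_succ', mul_inv_rev]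
    exact ⟨b⁻¹, inv_mem_sy hb, a⁻¹, ih ha, rfl⟩

theorem exists_mem_sy_pow {S : Set G} (hS : Subgroup.closure S = ⊤) (g : G) :
    ∃ n, g ∈ sy S ^ n := by
  have hg : g ∈ Subgroup.closure S := by rw [hS]; trivial
  induction hg using Subgroup.closure_induction with
  | mem x hx => exact ⟨1, by rw [pow_one]; right; left; exact hx⟩
  | one => exact ⟨0, by simp⟩
  | mul x y _ _ hx hy =>
    obtain ⟨m, hm⟩ := hx
    obtain ⟨n, hn⟩ := hy
    exact ⟨m + n, by rw [pow_add]; exact Set.mul_mem_mul hm hn⟩
  | inv x _ hx =>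
    obtain ⟨m, hm⟩ := hx
    exact ⟨m, inv_mem_sy_pow hm⟩

theorem sy_finite {S : Set G} (hS : S.Finite) : (sy S).Finite :=
  ((hS.union hS.inv).insert 1)

theorem sy_pow_finite {S : Set G} (hS : S.Finite) (n : ℕ) : (sy S ^ n).Finite := by
  induction n with
  | zero => rw [pow_zero]; exact Set.finite_one
  | succ n ih => rw [pow_succ]; exact ih.mul (sy_finite hS)

theorem wordDist_le_iff {S : Set G} (hS : Subgroup.closure S = ⊤) (x y : G) (n : ℕ) :
    wordDist S x y ≤ n ↔ x⁻¹ * y ∈ sy S ^ n := by
  constructor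
  · intro h
    have h1 : wordDist S x y ∈ {n | x⁻¹ * y ∈ sy S ^ n} :=
      Nat.sInf_mem (exists_mem_sy_pow hS (x⁻¹ * y))
    exact sy_pow_mono S h h1
  · intro h
    exact Nat.sInf_le h

/-- The graph metric given by a finite generating set. -/
noncomputable def wGM (S : Set G) (hfin : S.Finite) (hS : Subgroup.closure S = ⊤) : GM G where
  d := wordDist S
  d_self x := by
    have : wordDist S x x ≤ 0 := by rw [wordDist_le_iff hS]; simp
    omega
  d_eq x y h := by
    have h1 : wordDist S x y ≤ 0 := by omega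
    rw [wordDist_le_iff hS, pow_zero, Set.mem_one] at h1
    exact (inv_mul_eq_one.1 h1)
  d_symm x y := by
    apply le_antisymm
    · rw [wordDist_le_iff hS]
      have := (wordDist_le_iff hS y x (wordDist S y x)).1 le_rfl
      simpa using inv_mem_sy_pow this
    · rw [wordDist_le_iff hS]
      have := (wordDist_le_iff hS x y (wordDist S x y)).1 le_rfl
      simpa using inv_mem_sy_pow this
  d_tri x y z := by
    rw [wordDist_le_iff hS]
    have h1 := (wordDist_le_iff hS x y (wordDist S x y)).1 le_rfl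
    have h2 := (wordDist_le_iff hS y z (wordDist S y z)).1 le_rfl
    have h3 := Set.mul_mem_mul h1 h2
    have e : (x⁻¹ * y) * (y⁻¹ * z) = x⁻¹ * z := by group
    rw [← pow_add, e] at h3
    exact h3
  d_geo x y n h := by
    have h1 := (wordDist_le_iff hS x y (n + 1)).1 h.le
    rw [pow_succ] at h1
    obtain ⟨a, ha, b, hb, hab⟩ := h1
    have hxz : wordDist S x (x * a) ≤ n := by rw [wordDist_le_iff hS]; simpa using ha
    have hzy : wordDist S (x * a) y ≤ 1 := by
      rw [wordDist_le_iff hS, pow_one]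
      have : (x * a)⁻¹ * y = b := by
        rw [mul_inv_rev, mul_assoc, ← hab]; simp
      rw [this]; exact hb
    have htri : wordDist S x y ≤ wordDist S x (x * a) + wordDist S (x * a) y := by
      rw [wordDist_le_iff hS]
      have h1 := (wordDist_le_iff hS x (x * a) (wordDist S x (x * a))).1 le_rfl
      have h2 := (wordDist_le_iff hS (x * a) y (wordDist S (x * a) y)).1 le_rfl
      have h3 := Set.mul_mem_mul h1 h2
      have e : (x⁻¹ * (x * a)) * ((x * a)⁻¹ * y) = x⁻¹ * y := by group
      rw [← pow_add, e] at h3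
      exact h3
    exact ⟨x * a, by omega, by omega⟩
  V n := (sy S ^ n).ncard
  ball_fin x n := by
    have : {y | wordDist S x y ≤ n} = (fun g => x * g) '' (sy S ^ n) := by
      ext y
      simp only [Set.mem_ofPred_eq, Set.mem_image]
      rw [wordDist_le_iff hS]
      constructor
      · intro h; exact ⟨_, h, by group⟩
      · rintro ⟨g, hg, rfl⟩; simpa using hg
    rw [this]
    exact (sy_pow_finite hfin n).image _
  ball_card x n := by
    have : {y | wordDist S x y ≤ n} = (fun g => x * g) '' (sy S ^ n) := by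
      ext y
      simp only [Set.mem_ofPred_eq, Set.mem_image]
      rw [wordDist_le_iff hS]
      constructor
      · intro h; exact ⟨_, h, by group⟩
      · rintro ⟨g, hg, rfl⟩; simpa using hg
    rw [this]
    exact Set.ncard_image_of_injective _ (mul_right_injective x)

theorem wGM_le_iff {S : Set G} (hfin : S.Finite) (hS : Subgroup.closure S = ⊤) (x y : G) (n : ℕ) :
    (wGM S hfin hS).d x y ≤ n ↔ x⁻¹ * y ∈ sy S ^ n := wordDist_le_iff hS x y n

theorem wGM_inv {S : Set G} (hfin : S.Finite) (hS : Subgroup.closure S = ⊤) (g x y : G) :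
    (wGM S hfin hS).d (g * x) (g * y) = (wGM S hfin hS).d x y := by
  have h : ∀ n, (wGM S hfin hS).d (g * x) (g * y) ≤ n ↔ (wGM S hfin hS).d x y ≤ n := by
    intro n
    rw [wGM_le_iff, wGM_le_iff]
    have : (g * x)⁻¹ * (g * y) = x⁻¹ * y := by group
    rw [this]
  exact le_antisymm ((h _).2 le_rfl) ((h _).1 le_rfl)

end

end Pool.Agent.TH86.IL
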